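import Pool.Agent.N813.CL.Defs
import Pool.Agent.W216.SC.A

/-!
# Closing in extensions by tori
-/

set_option autoImplicit false

open scoped Manifold ContDiff Topology
open Filter Set Metric

universe u v

namespace Pool.Agent.N813.CL

open Pool.Agent.H718R2.G Pool.Agent.W564.SC

section top
variable {k : ℕ} {N : Type u} [TopologicalSpace N] [T2Space N] [CompactSpace N]
  {F : N → N} {R : V k → N → N} {K : Set N} {B : Type v} [MetricSpace B] {g : B → B} {π : N → B}

theorem iter_mem (h : IsQuot F R K g π) (i : ℕ) {y : N} (hy : y ∈ K) : F^[i] y ∈ K := by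
  induction i with
  | zero => exact hy
  | succ i ih => rw [Function.iterate_succ_apply']; exact h.mapF _ ih

theorem iter_equi (h : IsQuot F R K g π) (i : ℕ) {y : N} (hy : y ∈ K) :
    π (F^[i] y) = g^[i] (π y) := by
  induction i with
  | zero => rfl
  | succ i ih =>
    rw [Function.iterate_succ_apply', h.equi _ (iter_mem h i hy), ih,
      Function.iterate_succ_apply' g]

theorem locate (h : IsQuot F R K g π) (hRc : ∀ a, Continuous (R a)) {z : N} (hz : z ∈ K)
    {W : Set N} (hW : W ∈ 𝓝 z) :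
    ∃ η : ℝ, 0 < η ∧ ∀ b', dist b' (π z) < η → ∃ z' ∈ K, z' ∈ W ∧ π z' = b' := by
  obtain ⟨W', hW'W, hW'o, hzW'⟩ := mem_nhds_iff.1 hW
  set O : Set N := ⋃ a, R a ⁻¹' W' with hO
  have hOo : IsOpen O := isOpen_iUnion fun a => hW'o.preimage (hRc a)
  have hc : IsCompact (K \ O) := (h.closed.inter hOo.isClosed_compl).isCompact
  have hc2 : IsCompact (π '' (K \ O)) :=
    hc.image_of_continuousOn (h.cont.mono sdiff_subset)
  have hnot : π z ∉ π '' (K \ O) := by
    rintro ⟨y, ⟨hy, hyO⟩, hyz⟩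
    obtain ⟨c, hc⟩ := h.fib
    obtain ⟨a, -, ha⟩ := hc y hy z hz hyz
    apply hyO
    rw [hO, mem_iUnion]
    exact ⟨a, by rw [mem_preimage, ha]; exact hzW'⟩
  have hnh : (π '' (K \ O))ᶜ ∈ 𝓝 (π z) := hc2.isClosed.isOpen_compl.mem_nhds hnot
  obtain ⟨η, hη, hball⟩ := Metric.mem_nhds_iff.1 hnh
  refine ⟨η, hη, fun b' hb' => ?_⟩
  obtain ⟨y, hy, rfl⟩ := h.surj b'
  have h1 : y ∈ O := by
    by_contra hyO
    exact hball (mem_ball.2 hb') ⟨y, ⟨hy, hyO⟩, rfl⟩
  rw [hO, mem_iUnion] at h1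
  obtain ⟨a, ha⟩ := h1
  exact ⟨R a y, h.mapR a y hy, hW'W ha, h.inv a y hy⟩

theorem near_diag (h : IsQuot F R K g π) (hRc : ∀ a, Continuous (R a))
    {W : Set (N × N)} (hW : IsOpen W) (hd : ∀ y, (y, y) ∈ W) :
    ∃ c δ : ℝ, 0 < δ ∧ ∀ y ∈ K, ∀ y' ∈ K, dist (π y) (π y') < δ →
      ∃ β, ‖β‖ ≤ c ∧ (R β y, y') ∈ W := by
  obtain ⟨c, hc⟩ := h.fib
  set D : Set (N × N) := (K ×ˢ K) ∩ ⋂ β : {β : V k // ‖β‖ ≤ c}, {t | (R β t.1, t.2) ∉ W} with hD
  have hDc : IsClosed D := by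
    apply (h.closed.prod h.closed).inter
    apply isClosed_iInter
    intro β
    have : Continuous fun t : N × N => (R β t.1, t.2) :=
      ((hRc β).comp continuous_fst).prodMk continuous_snd
    exact (hW.preimage this).isClosed_compl
  have hcont : ContinuousOn (fun t : N × N => dist (π t.1) (π t.2)) D := by
    exact continuous_dist.comp_continuousOn
      ((h.cont.comp continuous_fst.continuousOn fun t ht => ht.1.1).prodMk
      (h.cont.comp continuous_snd.continuousOn fun t ht => ht.1.2))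
  obtain ⟨δ, hδ, hmin⟩ := hDc.isCompact.exists_forall_le' hcont (a := 0) (by
    rintro ⟨y, y'⟩ ⟨⟨hy, hy'⟩, ht⟩
    apply dist_pos.2
    intro he
    obtain ⟨a, hac, ha⟩ := hc y hy y' hy' he
    have h2 := mem_iInter.1 ht ⟨a, hac⟩
    apply h2
    show (R a y, y') ∈ W
    rw [ha]
    exact hd y')
  refine ⟨c, δ, hδ, fun y hy y' hy' hlt => ?_⟩
  by_contra hcon
  push Not at hcon
  have := hmin (y, y') ⟨⟨hy, hy'⟩, mem_iInter.2 fun β => hcon β β.2⟩
  exact absurd hlt (not_lt.2 this)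

variable {n : ℕ} [ChartedSpace (V n) N] {χ : OpenPartialHomeomorph N (V n)} {z : N}

/-- separation in the chart -/
theorem sep (h : IsQuot F R K g π) (hχ : GoodChart n N χ z) {d : ℝ} (hd : 0 < d) :
    ∃ ρ : ℝ, 0 < ρ ∧ ∀ p ∈ K, ∀ q ∈ K, d ≤ dist (π q) (π p) → p ∈ χ.source → ‖χ p‖ < 1 / 2 →
      q ∈ χ.source → ρ ≤ ‖χ q - χ p‖ := by
  set A : Set N := χ.symm '' closedBall (0 : V n) 1 with hA
  have hAc : IsCompact A := (isCompact_closedBall (0 : V n) 1).image_of_continuousOn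
    (χ.continuousOn_symm.mono hχ.ball)
  have hAs : A ⊆ χ.source := by
    rintro _ ⟨v, hv, rfl⟩
    exact χ.map_target (hχ.ball hv)
  set E : Set (N × N) := ((A ∩ K) ×ˢ (A ∩ K)) with hE
  have hEc : IsCompact E := (hAc.inter_right h.closed).prod (hAc.inter_right h.closed)
  have hdc : ContinuousOn (fun t : N × N => dist (π t.2) (π t.1)) E := by
    exact continuous_dist.comp_continuousOn
      ((h.cont.comp continuous_snd.continuousOn fun t ht => ht.2.2).prodMk
      (h.cont.comp continuous_fst.continuousOn fun t ht => ht.1.2))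
  set D : Set (N × N) := E ∩ (fun t : N × N => dist (π t.2) (π t.1)) ⁻¹' (Ici d) with hD
  have hDc : IsCompact D := by
    apply hEc.of_isClosed_subset _ inter_subset_left
    exact hdc.preimage_isClosed_of_isClosed hEc.isClosed isClosed_Ici
  have hcont : ContinuousOn (fun t : N × N => ‖χ t.2 - χ t.1‖) D := by
    apply ContinuousOn.norm
    apply ContinuousOn.sub
    · apply χ.continuousOn.comp continuous_snd.continuousOn
      intro t ht
      exact hAs ht.1.2.1
    · apply χ.continuousOn.comp continuous_fst.continuousOn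
      intro t ht
      exact hAs ht.1.1.1
  obtain ⟨ρ, hρ, hmin⟩ := hDc.exists_forall_le' hcont (a := 0) (by
    intro t ht
    apply norm_pos_iff.2
    rw [sub_ne_zero]
    intro h1
    have h2 := χ.injOn (hAs ht.1.2.1) (hAs ht.1.1.1) h1
    have h3 : d ≤ dist (π t.2) (π t.1) := ht.2
    rw [h2, dist_self] at h3
    linarith)
  refine ⟨min ρ (1 / 2), lt_min hρ (by norm_num), fun p hpK q hqK hpq hp hp' hq => ?_⟩
  by_cases hq1 : ‖χ q‖ ≤ 1
  · refine (min_le_left _ _).trans (hmin (p, q) ⟨⟨⟨?_, hpK⟩, ⟨?_, hqK⟩⟩, hpq⟩)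
    · exact ⟨χ p, by rw [mem_closedBall_zero_iff]; linarith, χ.left_inv hp⟩
    · exact ⟨χ q, by rw [mem_closedBall_zero_iff]; exact hq1, χ.left_inv hq⟩
  · refine (min_le_right _ _).trans ?_
    have := norm_sub_norm_le (χ q) (χ p)
    push Not at hq1
    linarith

/-- the neighbourhood of the diagonal -/
theorem chart_nhds (hχ : GoodChart n N χ z) {ε : ℝ} (hε : 0 < ε) :
    ∃ W : Set (N × N), IsOpen W ∧ (∀ y, (y, y) ∈ W) ∧ ∀ y y', (y, y') ∈ W → y' ∈ χ.source →
      ‖χ y'‖ < 1 / 2 → y ∈ χ.source ∧ ‖χ y - χ y'‖ < ε := by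
  set A : Set N := χ.symm '' closedBall (0 : V n) 1 with hA
  have hAc : IsCompact A := (isCompact_closedBall (0 : V n) 1).image_of_continuousOn
    (χ.continuousOn_symm.mono hχ.ball)
  have hAs : A ⊆ χ.source := by
    rintro _ ⟨v, hv, rfl⟩
    exact χ.map_target (hχ.ball hv)
  have hco : ContinuousOn (fun t : N × N => ‖χ t.1 - χ t.2‖) (χ.source ×ˢ χ.source) := by
    apply ContinuousOn.norm
    apply ContinuousOn.sub
    · exact χ.continuousOn.comp continuous_fst.continuousOn fun t ht => ht.1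
    · exact χ.continuousOn.comp continuous_snd.continuousOn fun t ht => ht.2
  refine ⟨((χ.source ×ˢ χ.source) ∩ (fun t : N × N => ‖χ t.1 - χ t.2‖) ⁻¹' (Iio ε)) ∪
    Prod.snd ⁻¹' Aᶜ, ?_, ?_, ?_⟩
  · apply IsOpen.union
    · exact hco.isOpen_inter_preimage (χ.open_source.prod χ.open_source) isOpen_Iio
    · exact hAc.isClosed.isOpen_compl.preimage continuous_snd
  · intro y
    by_cases hy : y ∈ A
    · left
      refine ⟨⟨hAs hy, hAs hy⟩, ?_⟩
      show ‖χ y - χ y‖ < ε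
      rw [sub_self, norm_zero]
      exact hε
    · right
      exact hy
  · rintro y y' (h1 | h1) hy' hn
    · exact ⟨h1.1.1, h1.2⟩
    · exfalso
      apply h1
      exact ⟨χ y', by rw [mem_closedBall_zero_iff]; linarith, χ.left_inv hy'⟩

end top

section act
variable {k n : ℕ} {N : Type u} [TopologicalSpace N] [ChartedSpace (V n) N] {R : V k → N → N}

theorem iter_H (hR : ExpAction k n N R) {F : N → N} {K : Set N} (hFK : ∀ y ∈ K, F y ∈ K)
    (hF : ∀ a, ∀ y ∈ K, F (R a y) = R a (F y)) (α : V k)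
    {H : N → N} (hH : ∀ y, H y = F (R α y)) (i : ℕ) {y : N} (hy : y ∈ K) :
    H^[i] y = R ((i : ℝ) • α) (F^[i] y) := by
  have hK : ∀ i, F^[i] y ∈ K := by
    intro i
    induction i with
    | zero => exact hy
    | succ i ih => rw [Function.iterate_succ_apply']; exact hFK _ ih
  induction i with
  | zero => simp [hR.zero]
  | succ i ih =>
    have h1 := hR.line 1 i α (F^[i] y)
    rw [one_smul] at h1
    rw [Function.iterate_succ_apply', ih, hH, ← h1, hF _ _ (hK i), ← Function.iterate_succ_apply' F]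
    congr 2
    push_cast
    ring

theorem small_root {κ : ℝ} (hκ : 0 < κ) (c : ℝ) :
    ∃ M : ℕ, 1 ≤ M ∧ ∀ m : ℕ, M ≤ m → ∀ β : V k, ‖β‖ ≤ c → ∃ α : V k, ‖α‖ < κ ∧
      (m : ℝ) • α = β := by
  obtain ⟨M, hM⟩ := exists_nat_gt (c / κ)
  refine ⟨M + 1, by omega, fun m hm β hβ => ?_⟩
  have hm0 : (0 : ℝ) < m := by
    have : 0 < m := by omega
    exact_mod_cast this
  refine ⟨(m : ℝ)⁻¹ • β, ?_, ?_⟩
  · rw [norm_smul, norm_inv, Real.norm_of_nonneg hm0.le, inv_mul_lt_iff₀ hm0]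
    have h3 : ((M : ℕ) : ℝ) ≤ m := by exact_mod_cast (by omega : M ≤ m)
    have h4 : c / κ < m := hM.trans_le h3
    rw [div_lt_iff₀ hκ] at h4
    linarith
  · rw [smul_smul, mul_inv_cancel₀ hm0.ne', one_smul]

/-- the family `F ∘ R_X` -/
theorem exp_fam (hR : ExpAction k n N R) (r : ℕ∞) (F : DiffM n N r) :
    ∃ H : V k → DiffM n N r, (∀ X y, H X y = F (R X y)) ∧ H 0 = F ∧ IsFam n N r H := by
  have hr' : (r : WithTop ℕ∞) ≤ ∞ := by exact_mod_cast le_top
  have hRs : ∀ s : V k, ContMDiff (𝓡 n) (𝓡 n) r (R s) := by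
    intro s
    have h1 : ContMDiff (𝓡 n) ((𝓡 k).prod (𝓡 n)) ∞ (fun y : N => ((s, y) : V k × N)) :=
      contMDiff_const.prodMk contMDiff_id
    exact (hR.smooth.comp h1).of_le hr'
  have hinv : ∀ (X : V k) (y : N), R (-X) (R X y) = y := by
    intro X y
    have h1 := hR.line (-1) 1 X y
    rw [neg_add_cancel, zero_smul, hR.zero, one_smul, neg_one_smul] at h1
    exact h1.symm
  let T : V k → DiffM n N r := fun s =>
    { toFun := R s
      invFun := R (-s)
      left_inv := fun y => hinv s y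
      right_inv := fun y => by
        have := hinv (-s) y
        rwa [neg_neg] at this
      contMDiff_toFun := hRs s
      contMDiff_invFun := hRs (-s) }
  obtain ⟨H, hH⟩ : ∃ H : V k → DiffM n N r, ∀ s y, H s y = F (R s y) :=
    ⟨fun s => (T s).trans F, fun s y => rfl⟩
  refine ⟨H, hH, ?_, ?_⟩
  · ext y
    rw [hH, hR.zero]
  · intro y
    have e1 : (fun p : V k × N => H p.1 p.2) = fun p => F (R p.1 p.2) := by
      funext p
      exact hH _ _
    rw [e1]
    exact (F.contMDiff.comp (hR.smooth.of_le hr')).contMDiffAt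

/-- Smooth actions of tori. -/
theorem exp_of_torus (hR : FreeTorus k n N R) : ExpAction k n N R :=
  ⟨hR.smooth, hR.zero, fun s t X y => by rw [add_smul, hR.add]⟩

end act

/-- closing at the points near periodic points -/
theorem close_of_per (h : S_CL.{u}) {n : ℕ} {N : Type u} [TopologicalSpace N] [T2Space N]
    [CompactSpace N] [ChartedSpace (V n) N] [IsManifold (𝓡 n) ∞ N] {r : ℕ∞} (hr : 1 ≤ r)
    {P : Type} [NormedAddCommGroup P] [NormedSpace ℝ P] {H : P → DiffM n N r}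
    (hfam : IsFam n N r H) {χ : OpenPartialHomeomorph N (V n)} {z : N} (hχ : GoodChart n N χ z)
    (hper : ∀ κ : ℝ, 0 < κ → ∃ (s : P) (z' : N) (m : ℕ), ‖s‖ < κ ∧ z' ∈ χ.source ∧ ‖χ z'‖ < κ ∧
      1 ≤ m ∧ (H s)^[m] z' = z') :
    Closable n N r (H 0) z := by
  intro U hU hFU
  obtain ⟨k, hk, κ, hκ, hcl⟩ := h n N r hr P H hfam χ z hχ U hU hFU
  obtain ⟨s, z1, m, hs1, hs, hn, hm1, hz1m⟩ := hper κ hκ
  have hp : z1 ∈ Function.periodicPts (H s) := Function.mk_mem_periodicPts (n := m) hm1 hz1m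
  have hmp := Function.minimalPeriod_pos_of_mem_periodicPts hp
  set mp := Function.minimalPeriod (H s) z1 with hmpdef
  classical
  obtain ⟨c, hc, hcm'⟩ := Pool.Agent.W216.SC.exists_pos_le (Finset.Ico 1 mp)
    (fun i => if (H s)^[i] z1 ∈ χ.source then ‖χ ((H s)^[i] z1) - χ z1‖ else 1) (by
    intro i hi
    rw [Finset.mem_Ico] at hi
    split_ifs with hsrc
    · apply norm_pos_iff.2
      rw [sub_ne_zero]
      intro h5
      have h6 := χ.injOn hsrc hs h5
      exact Function.not_isPeriodicPt_of_pos_of_lt_minimalPeriod (by omega) hi.2 h6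
    · exact one_pos)
  refine hcl s z1 (min (c / 2) (κ / 2)) mp hs1 hs hn (lt_min (half_pos hc) (half_pos hκ))
    ((min_le_right _ _).trans_lt (half_lt_self hκ)) hmp ?_ ?_ ?_
  · rw [hmpdef, Function.iterate_minimalPeriod]
    exact hs
  · rw [hmpdef, Function.iterate_minimalPeriod, sub_self, norm_zero]
    have : 0 < min (c / 2) (κ / 2) := lt_min (half_pos hc) (half_pos hκ)
    positivity
  · intro i hi0 hi1 hsrc
    have h5 := hcm' i (by rw [Finset.mem_Ico]; omega)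
    rw [if_pos hsrc] at h5
    have h6 : min (c / 2) (κ / 2) ≤ c / 2 := min_le_left _ _
    linarith

/-- closing in extensions by tori -/
theorem lift (h : S_CL.{u}) (h2 : S_GC.{u}) {k n : ℕ} {N : Type u}
    [TopologicalSpace N] [T2Space N]
    [CompactSpace N] [ChartedSpace (V n) N] [IsManifold (𝓡 n) ∞ N] {r : ℕ∞} (hr : 1 ≤ r)
    {R : V k → N → N} (hR : ExpAction k n N R) {F : DiffM n N r}
    {K : Set N} {B : Type v} [MetricSpace B]
    {g : B → B} {π : N → B} (hq : IsQuot F R K g π) {z : N} (hz : z ∈ K)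
    (hg : AlmostClose g (π z) ∨ NearPer g (π z)) : Closable n N r F z := by
  have hRc : ∀ a, Continuous (R a) := fun a =>
    hR.smooth.continuous.comp (continuous_const.prodMk continuous_id)
  obtain ⟨χ, hχ⟩ := h2 n N z
  obtain ⟨H, hH, hH0, hfam⟩ := exp_fam hR r F
  have hit : ∀ (α : V k) (i : ℕ), ∀ y ∈ K, (H α)^[i] y = R ((i : ℝ) • α) (F^[i] y) :=
    fun α i y hy => iter_H hR hq.mapF hq.comm α (hH α) i hy
  have hnear : ∀ κ : ℝ, 0 < κ → ∃ η : ℝ, 0 < η ∧ ∀ b', dist b' (π z) < η →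
      ∃ z' ∈ K, (z' ∈ χ.source ∧ ‖χ z'‖ < κ) ∧ π z' = b' := by
    intro κ hκ
    have h5 : ∀ᶠ y in 𝓝 z, y ∈ χ.source := χ.open_source.mem_nhds hχ.src
    have h6 : ∀ᶠ y in 𝓝 z, ‖χ y‖ < κ := by
      apply (χ.continuousAt hχ.src).norm.eventually_lt continuousAt_const
      rw [hχ.zero, norm_zero]
      exact hκ
    exact locate hq hRc hz (h5.and h6)
  rcases hg with hg | hg
  · intro U hU hFU
    obtain ⟨kU, hkU, κ, hκ, hcl⟩ := h n N r hr (V k) H hfam χ z hχ U hU (hH0 ▸ hFU)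
    obtain ⟨η, hη, hloc⟩ := hnear (min κ (1 / 2)) (lt_min hκ (by norm_num))
    obtain ⟨c, hc, hac⟩ := hg η hη
    obtain ⟨ρ1, hρ1, hsep⟩ := sep hq hχ hc
    set ρ := min (ρ1 / 2) (κ / 2) with hρ
    have hρ' : 0 < ρ := lt_min (half_pos hρ1) (half_pos hκ)
    have hρκ : ρ < κ := (min_le_right _ _).trans_lt (half_lt_self hκ)
    have hε : 0 < κ * ρ ^ kU := by positivity
    obtain ⟨W, hWo, hWd, hW⟩ := chart_nhds hχ hε
    obtain ⟨cR, δ, hδ, hdiag⟩ := near_diag hq hRc hWo hWd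
    obtain ⟨M, hM, hroot⟩ := small_root (k := k) hκ cR
    obtain ⟨m, b', hMm, hb', hclose, hiso⟩ := hac δ hδ M
    obtain ⟨z', hz'K, ⟨hz's, hz'n⟩, hz'π⟩ := hloc b' hb'
    have hFm : F^[m] z' ∈ K := iter_mem hq m hz'K
    obtain ⟨β, hβc, hβ⟩ := hdiag (F^[m] z') hFm z' hz'K (by
      rw [iter_equi hq m hz'K, hz'π]
      exact hclose)
    obtain ⟨α, hα, hαR⟩ := hroot m hMm β hβc
    obtain ⟨hs1, hs2⟩ := hW _ _ hβ hz's (hz'n.trans_le (min_le_right _ _))
    have hend : (H α)^[m] z' = R β (F^[m] z') := by rw [hit _ _ _ hz'K, hαR]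
    refine hcl α z' ρ m hα hz's (hz'n.trans_le (min_le_left _ _)) hρ' hρκ (hM.trans hMm) ?_ ?_ ?_
    · rw [hend]
      exact hs1
    · rw [hend]
      exact hs2
    · intro i hi0 him hsrc
      have hK : (H α)^[i] z' ∈ K := by
        rw [hit _ _ _ hz'K]
        exact hq.mapR _ _ (iter_mem hq i hz'K)
      have hπi : π ((H α)^[i] z') = g^[i] (π z') := by
        rw [hit _ _ _ hz'K, hq.inv _ _ (iter_mem hq i hz'K), iter_equi hq i hz'K]
      have h5 := hsep z' hz'K _ hK (by rw [hπi, hz'π]; exact hiso i hi0 him) hz's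
        (hz'n.trans_le (min_le_right _ _)) hsrc
      have h6 : ρ ≤ ρ1 / 2 := min_le_left _ _
      linarith
  · rw [← hH0]
    apply close_of_per h hr hfam hχ
    intro κ hκ
    obtain ⟨η, hη, hloc⟩ := hnear κ hκ
    obtain ⟨b', m, hm, hb', hper⟩ := hg η hη
    obtain ⟨z', hz'K, ⟨hz's, hz'n⟩, hz'π⟩ := hloc b' hb'
    obtain ⟨cR, hcR⟩ := hq.fib
    obtain ⟨M, hM, hroot⟩ := small_root (k := k) hκ cR
    have hperM : g^[m * M] b' = b' := by
      have : Function.IsPeriodicPt g m b' := hper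
      exact this.mul_const M
    obtain ⟨β, hβc, hβ⟩ := hcR (F^[m * M] z') (iter_mem hq _ hz'K) z' hz'K (by
      rw [iter_equi hq _ hz'K, hz'π, hperM])
    obtain ⟨α, hα, hαR⟩ := hroot (m * M) (Nat.le_mul_of_pos_left M hm) β hβc
    refine ⟨α, z', m * M, hα, hz's, hz'n, Nat.mul_pos hm hM, ?_⟩
    rw [hit _ _ _ hz'K, hαR, hβ]

end Pool.Agent.N813.CL
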