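import Pool.Agent.N813.CL.Solve

/-!
# Almost closed orbits near nonwandering toral orbits
-/

set_option autoImplicit false
set_option linter.unusedSectionVars false

open scoped Topology
open Filter Set Metric

universe u v

namespace Pool.Agent.N813.CL

open Pool.Agent.H718R2.G

variable {d : ℕ} {B : Type v} [MetricSpace B] [CompactSpace B] {g : B → B} {S : V d → B → B}
  {A : B → (V d ≃L[ℝ] V d)} {P : B → (V d →L[ℝ] V d)}

theorem poly1 {C σ : ℝ} (hC : 0 < C) (hσ : 0 ≤ σ) : 2 * (C + 1) * σ ≤ 4 * (C + 1) ^ 2 * σ := by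
  have : 0 ≤ σ * C := by positivity
  have : 0 ≤ σ * C ^ 2 := by positivity
  nlinarith

theorem poly2 {C σ : ℝ} (hC : 0 < C) (hσ : 0 ≤ σ) :
    σ + 2 * (C + 1) * σ ≤ 4 * (C + 1) ^ 2 * σ := by
  have : 0 ≤ σ * C := by positivity
  have : 0 ≤ σ * C ^ 2 := by positivity
  nlinarith

theorem poly3 {C σ : ℝ} (hC : 0 < C) (hσ : 0 ≤ σ) :
    2 * σ + 2 * (C * (C + 1) * σ) ≤ 4 * (C + 1) ^ 2 * σ := by
  have : 0 ≤ σ * C := by positivity
  have : 0 ≤ σ * C ^ 2 := by positivity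
  nlinarith

theorem poly4 {C σ s ε : ℝ} (hC : 0 < C) (hε : 0 < ε) (hs : s ≤ 2 * (C + 1) * σ + 2 * ε) :
    C * s ≤ 2 * (C * (C + 1) * σ) + 2 * ((C + 1) * ε) := by
  have : C * s ≤ C * (2 * (C + 1) * σ + 2 * ε) := mul_le_mul_of_nonneg_left hs hC.le
  nlinarith

set_option maxHeartbeats 2000000 in
theorem almost (hd : 1 ≤ d) (hS : TorusOrbits d S) (h : HypOnOrbits g S A P) (hgc : Continuous g)
    (hg : Function.Bijective g) {b : B} (hnw : NonWandMod g S b)
    (hb : ∀ j : ℕ, 1 ≤ j → ∀ a, g^[j] b ≠ S a b) : AlmostClose g b := by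
  classical
  intro η hη
  haveI : Nonempty B := ⟨b⟩
  obtain ⟨r, hr⟩ := hS.cocpt
  have hr0 : 0 ≤ r := by
    obtain ⟨w, -, hw⟩ := hr 0 b
    exact (norm_nonneg _).trans hw
  obtain ⟨C, μ, hC, hμ0, hμ1, hyp⟩ := h.hyp
  obtain ⟨c₀, E, hc₀, hE, hom⟩ := homoclinic hd hS h hg
  obtain ⟨ζ', hζ', hSζ'⟩ := uc0 hS (min (c₀ / 8) (η / 2)) (lt_min (by positivity) (by positivity))
  set ζ : ℝ := min ζ' 1 with hζdef
  have hζ : 0 < ζ := lt_min hζ' one_pos
  have hζ1 : ζ ≤ 1 := min_le_right _ _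
  have hSζ : ∀ (a : V d) (q : B), ‖a‖ < ζ → dist (S a q) q < c₀ / 8 ∧ dist (S a q) q < η / 2 := by
    intro a q ha
    have := hSζ' a q (ha.trans_le (min_le_left _ _))
    exact ⟨this.trans_le (min_le_left _ _), this.trans_le (min_le_right _ _)⟩
  set ε' : ℝ := ζ / (8 * (C + 1)) with hε'def
  have hε' : 0 < ε' := by positivity
  have hCε' : 2 * ((C + 1) * ε') = ζ / 4 := by
    rw [hε'def]; field_simp; norm_num
  have hε'1 : 2 * ε' ≤ ζ / 4 := by nlinarith
  obtain ⟨δP, hδP, hPuc⟩ : ∃ δP : ℝ, 0 < δP ∧ ∀ q q' : B, dist q q' < δP → ∀ v : V d,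
      ‖P q v - P q' v‖ ≤ 1 / (4 * C) * ‖v‖ := by
    have huc := CompactSpace.uniformContinuous_of_continuous h.cont
    rw [Metric.uniformContinuous_iff] at huc
    obtain ⟨δP, hδP, hP⟩ := huc (1 / (4 * C)) (by positivity)
    refine ⟨δP, hδP, fun q q' hqq v => ?_⟩
    have h1 := hP hqq
    rw [dist_eq_norm] at h1
    have h2 := (P q - P q').le_opNorm v
    exact h2.trans (mul_le_mul_of_nonneg_right h1.le (norm_nonneg _))
  obtain ⟨E', hE', hdense⟩ := dense_stable hS h hgc hg ε' hε'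
  set ν : ℝ := √μ with hν
  have hν0 : 0 < ν := Real.sqrt_pos.2 hμ0
  have hν1 : ν < 1 := by
    rw [hν, ← Real.sqrt_one]
    exact Real.sqrt_lt_sqrt hμ0.le hμ1
  have hμν : μ = ν * ν := (Real.mul_self_sqrt hμ0.le).symm
  have h1ν : 0 < 1 - ν := by linarith
  set G1 : ℝ := C * E * (4 * (C + 1) ^ 2) / (1 - ν) with hG1
  set G2 : ℝ := C * (4 + E') with hG2
  have hG1' : 0 ≤ G1 := by positivity
  have hG2' : 0 ≤ G2 := by positivity
  obtain ⟨R₀, hR₀⟩ := exists_pow_lt_of_lt_one (x := ζ / (4 * (G1 + G2 + 1))) (by positivity) hν1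
  have hR₀' : ν ^ R₀ * G1 + ν ^ R₀ * G2 < ζ / 4 := by
    rw [lt_div_iff₀ (by positivity)] at hR₀
    have : 0 < ν ^ R₀ := by positivity
    linarith
  have hνR0 : 0 < ν ^ R₀ := by positivity
  set σ : ℝ := C * E * ν ^ R₀ / (1 - ν) with hσ
  have hσ0 : 0 ≤ σ := by positivity
  have hσG : 4 * (C + 1) ^ 2 * σ = ν ^ R₀ * G1 := by
    rw [hσ, hG1]; ring
  have hσ4 : σ ≤ 4 * (C + 1) ^ 2 * σ := by nlinarith [mul_nonneg hσ0 hC.le]
  have hσ1 : σ ≤ 1 := by
    have : 0 ≤ ν ^ R₀ * G2 := by positivity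
    linarith
  have hμν' : ∀ j : ℕ, μ ^ j ≤ ν ^ j := fun j => pow_le_pow_left₀ hμ0.le (by rw [hμν]; nlinarith) j
  -- separation of the visits
  obtain ⟨c₁, hc₁, hnr⟩ := noreturn hS h hgc hb r R₀
  obtain ⟨c₃, hc₃, huc₃⟩ := uc hS r c₁ hc₁
  refine ⟨min (c₀ / 4) c₃, lt_min (by positivity) hc₃, fun δ hδ M => ?_⟩
  obtain ⟨δ₃, hδ₃, hδ₃1, huc2⟩ : ∃ δ₃ : ℝ, 0 < δ₃ ∧ δ₃ ≤ 1 ∧ ∀ (a a' : V d) (q q' : B),
      ‖a‖ ≤ 2 → ‖a'‖ ≤ 2 → ‖a - a'‖ < δ₃ → dist q q' < δ₃ → dist (S a q) (S a' q') < δ := by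
    obtain ⟨δ₃', hδ₃', huc2'⟩ := uc hS 2 δ hδ
    exact ⟨min δ₃' 1, lt_min hδ₃' one_pos, min_le_right _ _, fun a a' q q' h1 h2 h3 h4 =>
      huc2' a a' q q' h1 h2 (h3.trans_le (min_le_left _ _)) (h4.trans_le (min_le_left _ _))⟩
  obtain ⟨m₁, hm₁⟩ := exists_pow_lt_of_lt_one (x := δ₃ / (G2 + 1)) (by positivity) hν1
  set M₁ : ℕ := max M (max R₀ m₁) with hM₁
  obtain ⟨c', hc', hnr'⟩ := noreturn hS h hgc hb r M₁
  obtain ⟨δ₄, hδ₄, huc4⟩ := uc hS r (min (min c₁ c') δP) (lt_min (lt_min hc₁ hc') hδP)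
  set ε₂ : ℝ := min (min (η / 2) (min c₁ c')) (min (δ₄ / 2) (δ₃ / 2)) with hε₂
  have hε₂0 : 0 < ε₂ := lt_min (lt_min (by positivity) (lt_min hc₁ hc')) (lt_min (by positivity)
    (by positivity))
  obtain ⟨m, hm1, p, hpW, a, haW⟩ := hnw (ball b ε₂) (ball_mem_nhds b hε₂0)
  rw [mem_ball] at hpW haW
  obtain ⟨a₁, ha₁, ha₁S⟩ := red hS hr a (g^[m] p)
  rw [← ha₁S] at haW
  have e1 : ε₂ ≤ η / 2 := (min_le_left _ _).trans (min_le_left _ _)
  have e2 : ε₂ ≤ c₁ := (min_le_left _ _).trans ((min_le_right _ _).trans (min_le_left _ _))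
  have e3 : ε₂ ≤ c' := (min_le_left _ _).trans ((min_le_right _ _).trans (min_le_right _ _))
  have e4 : ε₂ ≤ δ₄ / 2 := (min_le_right _ _).trans (min_le_left _ _)
  have e5 : ε₂ ≤ δ₃ / 2 := (min_le_right _ _).trans (min_le_right _ _)
  have hclose : dist (S a₁ (g^[m] p)) p < 2 * ε₂ := by
    have := dist_triangle_right (S a₁ (g^[m] p)) p b
    linarith
  have hback' : dist (g^[m] p) (S (-a₁) p) < min (min c₁ c') δP := by
    have := huc4 (-a₁) (-a₁) (S a₁ (g^[m] p)) p (by rw [norm_neg]; exact ha₁)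
      (by rw [norm_neg]; exact ha₁) (by rw [sub_self, norm_zero]; exact hδ₄) (by linarith)
    rwa [S_neg hS] at this
  have hback : dist (g^[m] p) (S (-a₁) p) < min c₁ c' := hback'.trans_le (min_le_left _ _)
  have hPm : ∀ v, ‖P (g^[m] p) v - P p v‖ ≤ 1 / (4 * C) * ‖v‖ := by
    intro v
    have := hPuc _ _ (hback'.trans_le (min_le_right _ _)) v
    rwa [P_inv hS h hg] at this
  have hpb1 : dist p b < c₁ := hpW.trans_le e2
  have hMm : M₁ < m := by
    by_contra hcon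
    have := hnr' p p 0 (-a₁) m (hpW.trans_le e3) (by rw [norm_zero]; exact hr0)
      (by rw [norm_neg]; exact ha₁) (by rw [hS.zero, dist_self]; exact hc') hm1 (by omega)
    exact absurd (hback.trans_le (min_le_right _ _)) (not_lt.2 this)
  have hMm1 : M ≤ m := (le_max_left _ _).trans hMm.le
  have hMm2 : R₀ ≤ m := ((le_max_left _ _).trans (le_max_right _ _)).trans hMm.le
  have hMm3 : m₁ ≤ m := ((le_max_right _ _).trans (le_max_right _ _)).trans hMm.le
  -- the visits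
  set vis : ℕ → Prop := fun i => ∃ a, ‖a‖ ≤ r ∧ dist (g^[i] p) (S a p) < c₁ with hvis
  have hvis0 : vis 0 := ⟨0, by rw [norm_zero]; exact hr0, by
    rw [hS.zero]
    show dist p p < c₁
    rw [dist_self]; exact hc₁⟩
  have hvism : vis m := ⟨-a₁, by rw [norm_neg]; exact ha₁, hback.trans_le (min_le_left _ _)⟩
  have hgap : ∀ i i', vis i → vis i' → i < i' → i + R₀ ≤ i' := by
    rintro i i' ⟨u, hu, hu'⟩ ⟨u', hu1, hu2⟩ hii
    by_contra hcon
    have h1 := hnr p (g^[i] p) u u' (i' - i) hpb1 hu hu1 hu' (by omega) (by omega)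
    rw [← Function.iterate_add_apply, Nat.sub_add_cancel hii.le] at h1
    exact absurd hu2 (not_lt.2 h1)
  choose e he heE hec using hom
  set κ : ℕ → V d := fun i => if 0 < i ∧ i < m ∧ vis i ∧ dist (g^[i] p) p < c₀ / 2 then
    e (g^[i] p) else 0 with hκdef
  have hκS : ∀ i, S (κ i) (g^[i] p) = g^[i] p := by
    intro i
    simp only [hκdef]
    split_ifs with hi
    · exact he _
    · exact hS.zero _
  have hκE : ∀ i, ‖κ i‖ ≤ E := by
    intro i
    simp only [hκdef]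
    split_ifs with hi
    · exact heE _
    · rw [norm_zero]; exact hE
  have hκvis : ∀ i, κ i ≠ 0 → 0 < i ∧ i < m ∧ vis i := by
    intro i hi
    by_contra hcon
    apply hi
    simp only [hκdef]
    rw [if_neg]
    intro h1
    exact hcon ⟨h1.1, h1.2.1, h1.2.2.1⟩
  have hκ0 : ∀ t, κ t ≠ 0 → R₀ ≤ t ∧ t + R₀ ≤ m := by
    intro t ht
    obtain ⟨h1, h2, h3⟩ := hκvis t ht
    have h4 := hgap 0 t hvis0 h3 h1
    have h5 := hgap t m h3 hvism h2
    omega
  obtain ⟨w, hw, hwP, hwE⟩ := hdense a₁ (g^[m] p)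
  set a₂ : V d := a₁ - w with ha₂
  have ha₂S : S a₂ (g^[m] p) = S a₁ (g^[m] p) := S_sub hS hw
  set s : ℝ := 2 * ((C + 1) * σ + ‖P (g^[m] p) a₂‖) with hs
  have hs0 : 0 ≤ s := by positivity
  have hs1 : s ≤ 2 * (C + 1) * σ + 2 * ε' := by
    rw [hs]; linarith
  have hs2 : s ≤ 1 := by
    have h1 := poly1 hC hσ0
    have h2 : 0 ≤ ν ^ R₀ * G2 := by positivity
    linarith
  obtain ⟨x, hx1, hx2, hx3, hx4⟩ := solve h hC hν0 hν1 hμν hE hyp p m R₀ κ hκE hκ0
    (η := 1 / (4 * C)) (by field_simp; norm_num) hPm a₂ σ s hσ hs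
  -- sizes
  have hCR : C * μ ^ R₀ * (2 * σ + ‖a₂‖ + s) ≤ ν ^ R₀ * G2 := by
    calc C * μ ^ R₀ * (2 * σ + ‖a₂‖ + s) ≤ C * ν ^ R₀ * (4 + E') := by
          apply mul_le_mul (mul_le_mul_of_nonneg_left (hμν' R₀) hC.le) (by linarith) (by positivity)
            (by positivity)
      _ = _ := by rw [hG2]; ring
  have hCm : C * μ ^ m * (2 * σ + ‖a₂‖ + s) ≤ ν ^ R₀ * G2 := by
    refine le_trans ?_ hCR
    apply mul_le_mul_of_nonneg_right _ (by positivity)
    exact mul_le_mul_of_nonneg_left (pow_le_pow_of_le_one hμ0.le hμ1.le hMm2) hC.le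
  have hx0 : ‖x 0‖ < ζ := by
    refine hx2.trans_lt ?_
    have h1 := poly2 hC hσ0
    linarith
  have hxm : ‖x m - x 0 - a₂‖ < δ₃ := by
    refine hx3.trans_lt ?_
    rw [lt_div_iff₀ (by positivity)] at hm₁
    have hνm : ν ^ m ≤ ν ^ m₁ := pow_le_pow_of_le_one hν0.le hν1.le hMm3
    calc C * μ ^ m * (2 * σ + ‖a₂‖ + 2 * s) ≤ C * ν ^ m₁ * (4 + E') := by
          apply mul_le_mul (mul_le_mul_of_nonneg_left ((hμν' m).trans hνm) hC.le) (by linarith)
            (by positivity) (by positivity)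
      _ = ν ^ m₁ * G2 := by rw [hG2]; ring
      _ ≤ ν ^ m₁ * (G2 + 1) := by
          apply mul_le_mul_of_nonneg_left (by linarith) (by positivity)
      _ < δ₃ := hm₁
  have hxvis : ∀ i, 0 < i → i < m → vis i → ‖x i - (κ i - P (g^[i] p) (κ i))‖ < ζ := by
    intro i hi0 him hiv
    have h1 := hgap i m hiv hvism him
    refine (hx4 i him h1 ?_ ?_).trans_lt ?_
    · intro t ht hti
      exact hgap t i (hκvis t ht).2.2 hiv hti
    · intro t ht hti
      exact hgap i t hiv (hκvis t ht).2.2 hti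
    · have h2 := poly4 hC hε' hs1
      have h3 := poly3 hC hσ0
      linarith
  -- the orbit
  set b' : B := S (x 0) p with hb'
  have horb : ∀ i ≤ m, g^[i] b' = S (x i) (g^[i] p) := by
    intro i
    induction i with
    | zero => intro _; rfl
    | succ i ih =>
      intro hi
      rw [Function.iterate_succ_apply', ih (by omega), Function.iterate_succ_apply' g, hx1 i hi,
        ← h.equi, S_sub hS (hκS i)]
  have hb'p : dist b' p < c₀ / 8 ∧ dist b' p < η / 2 := hSζ (x 0) p hx0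
  refine ⟨m, b', hMm1, ?_, ?_, ?_⟩
  · have := dist_triangle b' p b
    linarith [hb'p.2]
  · rw [horb m le_rfl]
    have h1 : S (x m) (g^[m] p) = S (x m - a₂) (S a₁ (g^[m] p)) := by
      rw [← ha₂S, ← hS.add, sub_add_cancel]
    rw [h1]
    have h2 : ‖x m - a₂ - x 0‖ < δ₃ := by
      have : x m - a₂ - x 0 = x m - x 0 - a₂ := by abel
      rw [this]
      exact hxm
    have hsm : ‖x m - a₂‖ ≤ 2 := by
      have := norm_add_le (x m - a₂ - x 0) (x 0)
      rw [sub_add_cancel] at this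
      linarith
    exact huc2 _ _ _ _ hsm (by linarith) h2 (by linarith)
  · intro i hi0 him
    rw [horb i him.le]
    by_cases hiv : vis i
    · refine (min_le_left _ _).trans ?_
      have h1 : c₀ / 2 ≤ dist (S (κ i - P (g^[i] p) (κ i)) (g^[i] p)) p := by
        by_cases hd' : dist (g^[i] p) p < c₀ / 2
        · have hκi : κ i = e (g^[i] p) := by
            simp only [hκdef]
            rw [if_pos ⟨hi0, him, hiv, hd'⟩]
          rw [hκi]
          have h3 := hec (g^[i] p)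
          have h4 := dist_triangle_right (S (e (g^[i] p) - P (g^[i] p) (e (g^[i] p))) (g^[i] p))
            (g^[i] p) p
          linarith
        · have hκi : κ i = 0 := by
            simp only [hκdef]
            rw [if_neg]
            intro h1
            exact hd' h1.2.2.2
          rw [hκi, map_zero, sub_zero, hS.zero]
          linarith
      have h2 : S (x i) (g^[i] p) =
          S (x i - (κ i - P (g^[i] p) (κ i))) (S (κ i - P (g^[i] p) (κ i)) (g^[i] p)) := by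
        rw [← hS.add, sub_add_cancel]
      have h3 := (hSζ _ (S (κ i - P (g^[i] p) (κ i)) (g^[i] p)) (hxvis i hi0 him hiv)).1
      rw [← h2] at h3
      have h4 := dist_triangle4 (S (κ i - P (g^[i] p) (κ i)) (g^[i] p)) (S (x i) (g^[i] p)) b' p
      rw [dist_comm] at h3
      linarith [hb'p.1]
    · refine (min_le_right _ _).trans ?_
      by_contra hcon
      push Not at hcon
      obtain ⟨y, hy, hyS⟩ := red hS hr (x i) (g^[i] p)
      rw [← hyS] at hcon
      have h1 := huc₃ (-y) (-y) (S y (g^[i] p)) b' (by rw [norm_neg]; exact hy)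
        (by rw [norm_neg]; exact hy) (by rw [sub_self, norm_zero]; exact hc₃) hcon
      rw [S_neg hS, hb', ← hS.add] at h1
      obtain ⟨y', hy', hyS'⟩ := red hS hr (-y + x 0) p
      rw [← hyS'] at h1
      exact hiv ⟨y', hy', h1⟩

end Pool.Agent.N813.CL
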