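import Pool.Agent.N813.CL.Coc

/-!
# Periodic points near periodic toral orbits
-/

set_option autoImplicit false
set_option linter.unusedSectionVars false

open scoped Topology
open Filter Set Metric

universe u v

namespace Pool.Agent.N813.CL

open Pool.Agent.H718R2.G

variable {d : ℕ} {B : Type v} [MetricSpace B] {g : B → B} {S : V d → B → B}
  {A : B → (V d ≃L[ℝ] V d)} {P : B → (V d →L[ℝ] V d)}

theorem S_comm (hS : TorusOrbits d S) (a a' : V d) (b : B) : S a (S a' b) = S a' (S a b) := by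
  rw [← hS.add, add_comm, hS.add]

theorem iter_fix (D : V d ≃L[ℝ] V d) {v : V d} (hv : D v = v) (n : ℕ) : D^[n] v = v := by
  induction n with
  | zero => rfl
  | succ n ih => rw [Function.iterate_succ_apply', ih, hv]

theorem iter_smul (D : V d ≃L[ℝ] V d) (t : ℝ) (v : V d) (n : ℕ) : D^[n] (t • v) = t • D^[n] v := by
  induction n with
  | zero => rfl
  | succ n ih => rw [Function.iterate_succ_apply', ih, map_smul, Function.iterate_succ_apply']

theorem iter_aff (D : V d ≃L[ℝ] V d) (a₀ v u : V d) (n : ℕ) :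
    (fun x => D x + a₀)^[n] (v + u) = (fun x => D x + a₀)^[n] v + D^[n] u := by
  induction n with
  | zero => rfl
  | succ n ih =>
    rw [Function.iterate_succ_apply', ih, map_add, Function.iterate_succ_apply',
      Function.iterate_succ_apply' D]
    abel

theorem stab_nsmul (hS : TorusOrbits d S) {w : V d} {b : B} (hw : S w b = b) (n : ℕ) :
    S ((n : ℝ) • w) b = b := by
  induction n with
  | zero => rw [Nat.cast_zero, zero_smul, hS.zero]
  | succ n ih => rw [Nat.cast_succ, add_smul, one_smul, hS.add, hw, ih]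

section
variable {b : B} {j : ℕ} {a₀ : V d}

theorem iter_orb (hS : TorusOrbits d S) (h : HypOnOrbits g S A P) (hb : g^[j] b = S a₀ b)
    (v : V d) (n : ℕ) :
    g^[j * n] (S v b) = S ((fun x => coc g A j b x + a₀)^[n] v) b := by
  induction n with
  | zero => rfl
  | succ n ih =>
    rw [Nat.mul_succ, add_comm, Function.iterate_add_apply, ih, iter_S h, hb, ← hS.add,
      Function.iterate_succ_apply']

theorem coc_mul (hS : TorusOrbits d S) (h : HypOnOrbits g S A P) (hb : g^[j] b = S a₀ b)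
    (v : V d) (n : ℕ) : coc g A (j * n) b v = (coc g A j b)^[n] v := by
  have key : ∀ v, S (coc g A (j * n) b v - (coc g A j b)^[n] v) b = b := by
    intro v
    have h1 := iter_orb hS h hb v n
    have h2 := iter_orb hS h hb 0 n
    rw [hS.zero] at h2
    rw [iter_S h, h2, ← hS.add] at h1
    have h3 := iter_aff (coc g A j b) a₀ 0 v n
    rw [zero_add] at h3
    rw [h3] at h1
    apply S_inj hS ((fun x => coc g A j b x + a₀)^[n] 0 + (coc g A j b)^[n] v)
    rw [← h1, ← hS.add]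
    congr 1
    abel
  rw [← sub_eq_zero]
  apply scale_zero hS b
  intro t
  rw [smul_sub, ← map_smul, ← iter_smul]
  exact key (t • v)

theorem fixed_zero (hS : TorusOrbits d S) (h : HypOnOrbits g S A P) (hg : Function.Bijective g)
    (hj : 1 ≤ j) (hb : g^[j] b = S a₀ b) {v : V d} (hv : coc g A j b v = v) : v = 0 := by
  obtain ⟨C, μ, hC, hμ0, hμ1, hyp⟩ := h.hyp
  have hsmall : ∀ x : V d, (∀ n, ‖x‖ ≤ C * μ ^ (j * n) * ‖v‖) → x = 0 := by
    intro x hx
    apply zero_of_bound (K := C * ‖v‖) hμ0 hμ1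
    intro n
    have h2 : μ ^ (j * n) ≤ μ ^ n :=
      pow_le_pow_of_le_one hμ0.le hμ1.le (Nat.le_mul_of_pos_left n hj)
    calc ‖x‖ ≤ C * μ ^ (j * n) * ‖v‖ := hx n
      _ ≤ C * μ ^ n * ‖v‖ := by gcongr
      _ = _ := by ring
  have hPn : ∀ n w, P (g^[j * n] b) w = P b w := by
    intro n w
    have h2 := iter_orb hS h hb 0 n
    rw [hS.zero] at h2
    rw [h2, P_inv hS h hg]
  have hP1 : ∀ w, P (g^[j] b) w = P b w := by
    intro w
    rw [hb, P_inv hS h hg]
  have hPv : coc g A j b (P b v) = P b v := by rw [coc_P h, hv, hP1]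
  have h1 : P b v = 0 := by
    apply hsmall
    intro n
    have h2 := (hyp (j * n) b v).1
    rwa [coc_mul hS h hb, iter_fix _ hPv] at h2
  have h3 : v - P b v = 0 := by
    apply hsmall
    intro n
    have h2 := (hyp (j * n) b v).2
    rw [hPn] at h2
    have h4 : (coc g A (j * n) b).symm (v - P b v) = v - P b v := by
      rw [ContinuousLinearEquiv.symm_apply_eq, coc_mul hS h hb, iter_fix]
      rw [map_sub, hv, hPv]
    rwa [h4] at h2
  rw [h1, sub_zero] at h3
  exact h3

end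

theorem near_per [CompactSpace B] (hS : TorusOrbits d S) (h : HypOnOrbits g S A P)
    (hgb : Function.Bijective g) {b : B} {j : ℕ} {a₀ : V d} (hj : 1 ≤ j)
    (hb : g^[j] b = S a₀ b) : NearPer g b := by
  have hg := hgb.injective
  intro η hη
  obtain ⟨ρ, hρ, hdisc⟩ := hS.disc
  obtain ⟨r, hr⟩ := hS.cocpt
  obtain ⟨ζ, hζ, hSζ⟩ := uc0 hS η hη
  set D : V d ≃L[ℝ] V d := coc g A j b with hD
  -- the fixed point
  obtain ⟨vs, hvs⟩ : ∃ vs : V d, D vs + a₀ = vs := by
    set T : V d →ₗ[ℝ] V d := LinearMap.id - (D : V d →L[ℝ] V d).toLinearMap with hT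
    have hTv : ∀ v, T v = v - D v := fun v => rfl
    have hinj : Function.Injective T := by
      rw [injective_iff_map_eq_zero]
      intro v hv
      rw [hTv, sub_eq_zero] at hv
      exact fixed_zero hS h hgb hj hb hv.symm
    obtain ⟨vs, hvs⟩ := (LinearMap.injective_iff_surjective.1 hinj) a₀
    refine ⟨vs, ?_⟩
    rw [← hvs, hTv]
    abel
  obtain ⟨N, hN⟩ := exists_nat_gt (|r| / ζ)
  have hN0 : (0 : ℝ) < N := lt_of_le_of_lt (by positivity) hN
  obtain ⟨w, hw, hwr⟩ := hr (-((N : ℝ) • vs)) b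
  have hwr' : ‖-((N : ℝ) • vs) - w‖ ≤ |r| := hwr.trans (le_abs_self r)
  set u : V d := ((N : ℝ)⁻¹) • w with hu
  have hv' : ‖vs + u‖ < ζ := by
    have e1 : vs + u = -(((N : ℝ)⁻¹) • (-((N : ℝ) • vs) - w)) := by
      rw [hu, smul_sub, smul_neg, smul_smul, inv_mul_cancel₀ hN0.ne', one_smul]
      abel
    rw [e1, norm_neg, norm_smul, norm_inv, Real.norm_of_nonneg hN0.le]
    rw [div_lt_iff₀ hζ] at hN
    rw [inv_mul_lt_iff₀ hN0]
    linarith
  set φ : V d → V d := fun x => D x + a₀ with hφ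
  have hφvs : ∀ n, φ^[n] vs = vs := by
    intro n
    induction n with
    | zero => rfl
    | succ n ih => rw [Function.iterate_succ_apply', ih]; exact hvs
  have hφn : ∀ n, φ^[n] (vs + u) = vs + ((N : ℝ)⁻¹) • D^[n] w := by
    intro n
    have := iter_aff D a₀ vs u n
    rw [show (fun x => D x + a₀) = φ from rfl, hφvs, hu, iter_smul] at this
    exact this
  have horb : ∀ n, g^[j * n] (S (vs + u) b) = S (vs + ((N : ℝ)⁻¹) • D^[n] w) b := by
    intro n
    rw [iter_orb hS h hb, ← hφn]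
  have hstab : ∀ n, S (D^[n] w) b = b := by
    intro n
    have h1 := (stab_iff h hg (j * n) w b).2 hw
    have h2 := iter_orb hS h hb 0 n
    rw [hS.zero] at h2
    rw [h2, coc_mul hS h hb, S_comm hS] at h1
    exact S_inj hS _ h1
  have hred : ∀ n, ∃ w', S w' b = b ∧ ‖w'‖ ≤ N * |r| ∧
      S (vs + ((N : ℝ)⁻¹) • D^[n] w) b = S (vs + ((N : ℝ)⁻¹) • w') b := by
    intro n
    obtain ⟨l, hl, hlr⟩ := hr (((N : ℝ)⁻¹) • D^[n] w) b
    refine ⟨D^[n] w - (N : ℝ) • l, ?_, ?_, ?_⟩
    · rw [S_sub hS (stab_nsmul hS hl N)]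
      exact hstab n
    · have e1 : D^[n] w - (N : ℝ) • l = (N : ℝ) • (((N : ℝ)⁻¹) • D^[n] w - l) := by
        rw [smul_sub, smul_smul, mul_inv_cancel₀ hN0.ne', one_smul]
      rw [e1, norm_smul, Real.norm_of_nonneg hN0.le]
      exact mul_le_mul_of_nonneg_left (hlr.trans (le_abs_self r)) hN0.le
    · have e1 : vs + ((N : ℝ)⁻¹) • (D^[n] w - (N : ℝ) • l) = (vs + ((N : ℝ)⁻¹) • D^[n] w) - l := by
        rw [smul_sub, smul_smul, inv_mul_cancel₀ hN0.ne', one_smul]
        abel
      rw [e1, S_sub hS hl]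
  choose w' hw'1 hw'2 hw'3 using hred
  obtain ⟨x, -, ψ, hψ, hlim⟩ := (isCompact_closedBall (0 : V d) (N * |r|)).tendsto_subseq
    (fun n => mem_closedBall_zero_iff.2 (hw'2 n))
  obtain ⟨K, hK⟩ := Metric.tendsto_atTop.1 hlim (ρ / 2) (by positivity)
  have h1 := hK K le_rfl
  have h2 := hK (K + 1) (Nat.le_succ K)
  have h3 : w' (ψ K) = w' (ψ (K + 1)) := by
    rw [← sub_eq_zero]
    apply hdisc _ b
    · rw [S_sub hS (hw'1 _)]
      exact hw'1 _
    · rw [← dist_eq_norm]
      have := dist_triangle_right (w' (ψ K)) (w' (ψ (K + 1))) x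
      simp only [Function.comp] at h1 h2
      linarith
  have hlt : ψ K < ψ (K + 1) := hψ (Nat.lt_succ_self K)
  obtain ⟨t, ht⟩ := Nat.exists_eq_add_of_lt hlt
  refine ⟨S (vs + u) b, j * (t + 1), Nat.mul_pos hj (by omega), hSζ _ b hv', ?_⟩
  have h4 : g^[j * ψ K] (S (vs + u) b) = g^[j * ψ (K + 1)] (S (vs + u) b) := by
    rw [horb, horb, hw'3, hw'3 (ψ (K + 1)), h3]
  rw [ht, add_assoc, Nat.mul_add, Function.iterate_add_apply] at h4
  exact ((hg.iterate _) h4).symm

end Pool.Agent.N813.CL
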