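import Pool.Agent.N813.CL.Lift
import Pool.Agent.N813.CL.Almost
import Pool.Agent.N813.CL.Per
import Pool.Agent.W564.SC.Lib

/-!
# The closing lemma for maps which are hyperbolic on toral orbits
-/

set_option autoImplicit false

open scoped Manifold ContDiff Topology
open Filter Set Metric

universe u v

namespace Pool.Agent.N813.CL

open Pool.Agent.H718R2.G Pool.Agent.W564.SC

/-- The dichotomy for maps which are hyperbolic on toral orbits, over an arbitrary map of the space of
the orbits. -/
theorem dichotomy {d : ℕ} (hd : 1 ≤ d) {B : Type v} [MetricSpace B] [CompactSpace B] (g : B ≃ₜ B)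
    {S : V d → B → B} {A : B → (V d ≃L[ℝ] V d)} {P : B → (V d →L[ℝ] V d)} (hS : TorusOrbits d S)
    (h : HypOnOrbits g S A P) {b : B} (hnw : NonWandMod g S b) :
    AlmostClose g b ∨ NearPer g b := by
  by_cases hb : ∀ j : ℕ, 1 ≤ j → ∀ a, g^[j] b ≠ S a b
  · exact Or.inl (almost hd hS h g.continuous g.bijective hnw hb)
  · push Not at hb
    obtain ⟨j, hj, a, ha⟩ := hb
    exact Or.inr (near_per hS h g.bijective hj ha)

theorem closable {k d n : ℕ} (hd : 1 ≤ d) {N : Type u} [TopologicalSpace N] [T2Space N]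
    [CompactSpace N] [ChartedSpace (V n) N] [IsManifold (𝓡 n) ∞ N] {r : ℕ∞} (hr : 1 ≤ r)
    {R : V k → N → N} (hR : ExpAction k n N R) {F : DiffM n N r} {K : Set N}
    {B : Type v} [MetricSpace B] [CompactSpace B] (g : B ≃ₜ B) {π : N → B}
    (hq : IsQuot F R K g π) {S : V d → B → B} {A : B → (V d ≃L[ℝ] V d)} {P : B → (V d →L[ℝ] V d)}
    (hS : TorusOrbits d S) (h : HypOnOrbits g S A P) {z : N} (hz : z ∈ K)
    (hnw : NonWandMod g S (π z)) : Closable n N r F z :=
  lift t_CL Pool.Agent.W699.SC.gc hr hR hq hz (dichotomy hd g hS h hnw)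

end Pool.Agent.N813.CL
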