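import Pool.Agent.N813.CL.DefsF
import Pool.Agent.N813.CL.Main

/-!
# The closing lemma for maps which are hyperbolic on toral orbits
-/

set_option autoImplicit false

open scoped Manifold ContDiff Topology
open Filter Set Metric

universe u v

namespace Pool.Agent.N813.CL.F

open Pool.Agent.H718R2.G Pool.Agent.W564.SC

theorem coc_eq {d : ℕ} {B : Type v} (g : B → B) (A : B → Aut d) (n : ℕ) (b : B) :
    coc g A n b = Pool.Agent.N813.CL.coc g A n b := by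
  induction n with
  | zero => rfl
  | succ n ih =>
    show mulA (A (g^[n] b)) (coc g A n b) = (Pool.Agent.N813.CL.coc g A n b).trans (A (g^[n] b))
    rw [ih]
    rfl

theorem closing {k d n : ℕ} (hd : 1 ≤ d) {N : Type u} [TopologicalSpace N] [T2Space N]
    [CompactSpace N] [ChartedSpace (V n) N] [IsManifold (𝓡 n) ∞ N] {r : ℕ∞} (hr : 1 ≤ r)
    {F : DiffM n N r} {z : N} (h : TorHyp.{u, v} k d n N F z) : Closable n N r F z := by
  obtain ⟨R, K, B, _, _, g, π, ⟨hR1, hR2, hR3⟩, ⟨hK1, hK2⟩, ⟨hq1, hq2, hq3, c, hq4⟩, hq5, hz,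
    S, A, ⟨⟨hS1, hS2, hS3⟩, hS4, hS5⟩, heq, ⟨P, ⟨hP1, hP2⟩, hP3, C, μ, hC, hμ0, hμ1, hyp⟩, hnw⟩ := h
  refine Pool.Agent.N813.CL.closable (k := k) (d := d) hd hr ⟨hR1, hR2, hR3⟩ g
    (K := K) (π := π) ⟨hK1, fun y hy => (hK2 y hy).1, fun X y hy => ((hK2 y hy).2 X).1,
      fun X y hy => ((hK2 y hy).2 X).2, hq1, hq2, hq3, ⟨c, hq4⟩, hq5⟩
    (S := S) (A := A) (P := P) ⟨hS1, hS2, hS3, hS4, hS5⟩
    ⟨heq, hP1, hP2, hP3, C, μ, hC, hμ0, hμ1, fun n b v => ?_⟩ hz hnw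
  have := hyp n b v
  rw [coc_eq] at this
  exact this

theorem main {k d n : ℕ} (hd : 1 ≤ d) {N : Type u} [TopologicalSpace N] [T2Space N]
    [CompactSpace N] [ChartedSpace (V n) N] [IsManifold (𝓡 n) ∞ N] (r : ℕ∞) (hr : 1 ≤ r)
    (F : DiffM n N r) (z : N) (h : Approx n N r F fun F' => TorHyp.{u, v} k d n N F' z) :
    Approx n N r F fun G => IsPer G z := by
  intro U hU hFU
  obtain ⟨F', hF', h'⟩ := h U hU hFU
  exact closing hd hr h' U hU hF'

end Pool.Agent.N813.CL.F
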