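import Pool.Agent.W564.SC.Defs

/-!
# Maps which are hyperbolic along the orbits of an action of `ℝ^d` with toral orbits: definitions

`V d = ℝ^d` (`Pool/Agent/H718R2/G0.lean`).
-/

set_option autoImplicit false

open scoped Manifold ContDiff Topology
open Filter Set Metric

universe u v

namespace Pool.Agent.N813.CL

open Pool.Agent.H718R2.G Pool.Agent.W564.SC

/-- A continuous action `S` of `ℝ^d` on `B` all of whose orbits are `d`-dimensional tori: the
stabilisers are lattices of `ℝ^d`, uniformly discrete and uniformly cocompact. -/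
structure TorusOrbits (d : ℕ) {B : Type*} [MetricSpace B] (S : V d → B → B) : Prop where
  cont : Continuous fun q : V d × B => S q.1 q.2
  zero : ∀ b, S 0 b = b
  add : ∀ a a' b, S (a + a') b = S a (S a' b)
  disc : ∃ ρ : ℝ, 0 < ρ ∧ ∀ a b, S a b = b → ‖a‖ < ρ → a = 0
  cocpt : ∃ c : ℝ, ∀ a b, ∃ w, S w b = b ∧ ‖a - w‖ ≤ c

/-- The products `A (g^(n-1) b) ∘ ⋯ ∘ A (g b) ∘ A b` along the orbits of `g`. -/
def coc {d : ℕ} {B : Type*} (g : B → B) (A : B → (V d ≃L[ℝ] V d)) : ℕ → B → (V d ≃L[ℝ] V d)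
  | 0, _ => ContinuousLinearEquiv.refl ℝ (V d)
  | n + 1, b => (coc g A n b).trans (A (g^[n] b))

/-- `g` permutes the orbits of the action `S` of `ℝ^d`, `g (S_a b) = S_{A_b a} (g b)` with `A_b`
linear, and `g` is hyperbolic along the orbits: there is a continuous splitting
`ℝ^d = im P_b ⊕ ker P_b` (with projections `P_b`), which is invariant under the cocycle `A` over `g`,
and the products of the `A_b` along the orbits of `g` contract the first summand and expand the second
one exponentially fast. -/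
structure HypOnOrbits {d : ℕ} {B : Type*} [TopologicalSpace B] (g : B → B) (S : V d → B → B)
    (A : B → (V d ≃L[ℝ] V d)) (P : B → (V d →L[ℝ] V d)) : Prop where
  equi : ∀ a b, g (S a b) = S (A b a) (g b)
  cont : Continuous P
  proj : ∀ b v, P b (P b v) = P b v
  comm : ∀ b v, A b (P b v) = P (g b) (A b v)
  hyp : ∃ C μ : ℝ, 0 < C ∧ 0 < μ ∧ μ < 1 ∧ ∀ (n : ℕ) (b : B) (v : V d),
    ‖coc g A n b (P b v)‖ ≤ C * μ ^ n * ‖v‖ ∧
    ‖(coc g A n b).symm (v - P (g^[n] b) v)‖ ≤ C * μ ^ n * ‖v‖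

/-- The orbit of `b` is nonwandering for the map induced by `g` on the space of the orbits of `S`. -/
def NonWandMod {d : ℕ} {B : Type*} [TopologicalSpace B] (g : B → B) (S : V d → B → B) (b : B) :
    Prop :=
  ∀ W ∈ 𝓝 b, ∃ m : ℕ, 1 ≤ m ∧ ∃ y ∈ W, ∃ a, S a (g^[m] y) ∈ W

/-- A smooth action of a compact connected Lie group `G` with the Lie algebra `ℝ^k`, given by the
maps `R_X y = exp(X) y` of `N`, `X ∈ ℝ^k`: smooth in both variables, and a one-parameter group on every
line through `0`. (A smooth action of the torus `ℝ^k / ℤ^k` is a special case.) -/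
structure ExpAction (k n : ℕ) (N : Type*) [TopologicalSpace N] [ChartedSpace (V n) N]
    (R : V k → N → N) : Prop where
  smooth : ContMDiff ((𝓡 k).prod (𝓡 n)) (𝓡 n) ∞ (fun q : V k × N => R q.1 q.2)
  zero : ∀ y, R 0 y = y
  line : ∀ (s t : ℝ) (X : V k) (y : N), R ((s + t) • X) y = R (s • X) (R (t • X) y)

/-- `π : K → B` is the quotient of the closed set `K ⊆ N` by the group of the `R_X = exp(X)`, `K` is
invariant under `F` and under the group, `F` commutes with the group on `K`, and `g` is the map of `B`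
induced by `F`. (For a compact connected group there is a constant `c` such that every element is
`exp(X)` with `‖X‖ ≤ c`.) -/
structure IsQuot {k : ℕ} {N : Type*} [TopologicalSpace N] (F : N → N) (R : V k → N → N)
    (K : Set N) {B : Type*} [MetricSpace B] (g : B → B) (π : N → B) : Prop where
  closed : IsClosed K
  mapF : ∀ y ∈ K, F y ∈ K
  mapR : ∀ X, ∀ y ∈ K, R X y ∈ K
  comm : ∀ X, ∀ y ∈ K, F (R X y) = R X (F y)
  cont : ContinuousOn π K
  surj : ∀ b, ∃ y ∈ K, π y = b
  inv : ∀ X, ∀ y ∈ K, π (R X y) = π y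
  fib : ∃ c : ℝ, ∀ y ∈ K, ∀ y' ∈ K, π y = π y' → ∃ X, ‖X‖ ≤ c ∧ R X y = y'
  equi : ∀ y ∈ K, π (F y) = g (π y)

/-- There are points near `b` whose orbits first return near them at a late time, and then very
precisely. -/
def AlmostClose {B : Type*} [MetricSpace B] (g : B → B) (b : B) : Prop :=
  ∀ η : ℝ, 0 < η → ∃ c : ℝ, 0 < c ∧ ∀ δ : ℝ, 0 < δ → ∀ M : ℕ, ∃ (m : ℕ) (b' : B),
    M ≤ m ∧ dist b' b < η ∧ dist (g^[m] b') b' < δ ∧
    ∀ i, 0 < i → i < m → c ≤ dist (g^[i] b') b'

/-- `b` is a limit of periodic points. -/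
def NearPer {B : Type*} [MetricSpace B] (g : B → B) (b : B) : Prop :=
  ∀ η : ℝ, 0 < η → ∃ (b' : B) (m : ℕ), 1 ≤ m ∧ dist b' b < η ∧ g^[m] b' = b'

end Pool.Agent.N813.CL
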