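import Pool.Agent.N813.CL.Defs

/-!
# Lemmas on the linear cocycle along the toral orbits
-/

set_option autoImplicit false
set_option linter.unusedSectionVars false

open scoped Topology
open Filter Set Metric

universe u v

namespace Pool.Agent.N813.CL

open Pool.Agent.H718R2.G

section alg
variable {d : ℕ} {B : Type v} [MetricSpace B] {g : B → B} {S : V d → B → B}
  {A : B → (V d ≃L[ℝ] V d)} {P : B → (V d →L[ℝ] V d)}

theorem coc_succ_apply (n : ℕ) (b : B) (v : V d) :
    coc g A (n + 1) b v = A (g^[n] b) (coc g A n b v) := rfl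

theorem coc_add (n m : ℕ) (b : B) (v : V d) :
    coc g A (n + m) b v = coc g A m (g^[n] b) (coc g A n b v) := by
  induction m with
  | zero => rfl
  | succ m ih =>
    rw [← add_assoc, coc_succ_apply, ih, coc_succ_apply, ← Function.iterate_add_apply, add_comm m n]

theorem coc_add_symm (n m : ℕ) (b : B) (v : V d) :
    (coc g A (n + m) b).symm v = (coc g A n b).symm ((coc g A m (g^[n] b)).symm v) := by
  rw [ContinuousLinearEquiv.symm_apply_eq, coc_add, ContinuousLinearEquiv.apply_symm_apply,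
    ContinuousLinearEquiv.apply_symm_apply]

theorem iter_S (h : HypOnOrbits g S A P) (n : ℕ) (a : V d) (b : B) :
    g^[n] (S a b) = S (coc g A n b a) (g^[n] b) := by
  induction n with
  | zero => rfl
  | succ n ih =>
    rw [Function.iterate_succ_apply', ih, h.equi, coc_succ_apply, ← Function.iterate_succ_apply' g]

theorem coc_P (h : HypOnOrbits g S A P) (n : ℕ) (b : B) (v : V d) :
    coc g A n b (P b v) = P (g^[n] b) (coc g A n b v) := by
  induction n with
  | zero => rfl
  | succ n ih => rw [coc_succ_apply, ih, h.comm, coc_succ_apply, ← Function.iterate_succ_apply' g]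

theorem coc_symm_P (h : HypOnOrbits g S A P) (n : ℕ) (b : B) (v : V d) :
    (coc g A n b).symm (P (g^[n] b) v) = P b ((coc g A n b).symm v) := by
  rw [ContinuousLinearEquiv.symm_apply_eq, coc_P h, ContinuousLinearEquiv.apply_symm_apply]

theorem S_neg (hS : TorusOrbits d S) (a : V d) (b : B) : S (-a) (S a b) = b := by
  rw [← hS.add, neg_add_cancel, hS.zero]

theorem S_inj (hS : TorusOrbits d S) (a : V d) {b b' : B} (h : S a b = S a b') : b = b' := by
  rw [← S_neg hS a b, h, S_neg hS]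

theorem S_sub (hS : TorusOrbits d S) {a w : V d} {b : B} (hw : S w b = b) :
    S (a - w) b = S a b := by
  have h1 : S (-w) b = b := by
    conv_lhs => rw [← hw]
    exact S_neg hS w b
  rw [sub_eq_add_neg, hS.add, h1]

theorem stab_iff (h : HypOnOrbits g S A P) (hg : Function.Injective g) (n : ℕ) (a : V d) (b : B) :
    S (coc g A n b a) (g^[n] b) = g^[n] b ↔ S a b = b := by
  rw [← iter_S h]
  exact ⟨fun h1 => (hg.iterate n) h1, fun h1 => by rw [h1]⟩

/-- reduction of the time -/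
theorem red (hS : TorusOrbits d S) {c : ℝ} (hc : ∀ (a : V d) (b : B), ∃ w, S w b = b ∧ ‖a - w‖ ≤ c)
    (a : V d) (b : B) : ∃ a', ‖a'‖ ≤ c ∧ S a' b = S a b := by
  obtain ⟨w, hw, hn⟩ := hc a b
  exact ⟨a - w, hn, S_sub hS hw⟩

/-- no nontrivial element of the stabilisers is contracted -/
theorem stable_zero (hS : TorusOrbits d S) (h : HypOnOrbits g S A P) (hg : Function.Injective g)
    {v : V d} {q : B} (hv : S (P q v) q = q) : P q v = 0 := by
  obtain ⟨ρ, hρ, hdisc⟩ := hS.disc
  obtain ⟨C, μ, hC, hμ0, hμ1, hyp⟩ := h.hyp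
  obtain ⟨n, hn⟩ := exists_pow_lt_of_lt_one (x := ρ / (C * (‖v‖ + 1))) (by positivity) hμ1
  have h1 : ‖coc g A n q (P q v)‖ < ρ := by
    refine (hyp n q v).1.trans_lt ?_
    rw [lt_div_iff₀ (by positivity)] at hn
    have h2 : 0 < μ ^ n := by positivity
    nlinarith [norm_nonneg v]
  have h2 := hdisc _ _ ((stab_iff h hg n (P q v) q).2 hv) h1
  exact (coc g A n q).map_eq_zero_iff.1 h2

/-- no nontrivial element of the stabilisers is expanded from the past -/
theorem unstable_zero (hS : TorusOrbits d S) (h : HypOnOrbits g S A P) (hg : Function.Bijective g)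
    {v : V d} {q : B} (hv : S (v - P q v) q = q) : v - P q v = 0 := by
  obtain ⟨ρ, hρ, hdisc⟩ := hS.disc
  obtain ⟨C, μ, hC, hμ0, hμ1, hyp⟩ := h.hyp
  obtain ⟨n, hn⟩ := exists_pow_lt_of_lt_one (x := ρ / (C * (‖v‖ + 1))) (by positivity) hμ1
  obtain ⟨q', rfl⟩ := (hg.surjective.iterate n) q
  have h1 : ‖(coc g A n q').symm (v - P (g^[n] q') v)‖ < ρ := by
    refine (hyp n q' v).2.trans_lt ?_
    rw [lt_div_iff₀ (by positivity)] at hn
    have h2 : 0 < μ ^ n := by positivity
    nlinarith [norm_nonneg v]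
  have h2 : S ((coc g A n q').symm (v - P (g^[n] q') v)) q' = q' := by
    rw [← stab_iff h hg.injective n, ContinuousLinearEquiv.apply_symm_apply]
    exact hv
  have h3 := hdisc _ _ h2 h1
  exact (coc g A n q').symm.map_eq_zero_iff.1 h3

theorem scale_zero (hS : TorusOrbits d S) (q : B) (Z : V d) (hZ : ∀ t : ℝ, S (t • Z) q = q) :
    Z = 0 := by
  obtain ⟨ρ, hρ, hdisc⟩ := hS.disc
  by_contra hZ0
  have hZn : 0 < ‖Z‖ := norm_pos_iff.2 hZ0
  have h5 := hdisc _ _ (hZ (ρ / 2 / ‖Z‖)) (by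
    rw [norm_smul, Real.norm_of_nonneg (by positivity), div_mul_cancel₀ _ hZn.ne']
    linarith)
  rw [smul_eq_zero] at h5
  rcases h5 with h5 | h5
  · have : 0 < ρ / 2 / ‖Z‖ := by positivity
    linarith
  · exact hZ0 h5

/-- the cocycle is constant on the orbits -/
theorem A_inv (hS : TorusOrbits d S) (h : HypOnOrbits g S A P) (a : V d) (b : B) (v : V d) :
    A (S a b) v = A b v := by
  rw [← sub_eq_zero]
  apply scale_zero hS (g b)
  intro t
  rw [smul_sub, ← map_smul, ← map_smul]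
  have h1 := h.equi (t • v) (S a b)
  rw [← hS.add, h.equi, h.equi, map_add, hS.add, ← hS.add (A (S a b) (t • v)),
    add_comm (A (S a b) (t • v)), hS.add, ← hS.add, add_comm (A b (t • v)), hS.add] at h1
  have h2 := S_inj hS _ h1
  apply S_inj hS (A b (t • v))
  rw [← hS.add, add_sub_cancel, ← h2]

theorem coc_inv (hS : TorusOrbits d S) (h : HypOnOrbits g S A P) (n : ℕ) (a : V d) (b : B)
    (v : V d) : coc g A n (S a b) v = coc g A n b v := by
  induction n with
  | zero => rfl
  | succ n ih => rw [coc_succ_apply, ih, iter_S h, A_inv hS h, coc_succ_apply]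

theorem zero_of_bound {K μ : ℝ} (hμ0 : 0 < μ) (hμ1 : μ < 1) {w : V d}
    (hw : ∀ n : ℕ, ‖w‖ ≤ K * μ ^ n) : w = 0 := by
  have h1 : Tendsto (fun n : ℕ => K * μ ^ n) atTop (𝓝 (K * 0)) :=
    (tendsto_pow_atTop_nhds_zero_of_lt_one hμ0.le hμ1).const_mul K
  rw [mul_zero] at h1
  have h2 := ge_of_tendsto' h1 hw
  exact norm_le_zero_iff.1 h2

/-- the splitting is constant on the orbits -/
theorem P_inv (hS : TorusOrbits d S) (h : HypOnOrbits g S A P) (hg : Function.Bijective g)
    (a : V d) (b : B) (v : V d) : P (S a b) v = P b v := by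
  obtain ⟨C, μ, hC, hμ0, hμ1, hyp⟩ := h.hyp
  have h1 : P b v - P (S a b) (P b v) = 0 := by
    apply zero_of_bound (K := C * (C * ‖v‖)) hμ0 hμ1
    intro n
    have e1 := (hyp n (S a b) (coc g A n b (P b v))).2
    rw [← coc_inv hS h n a b, ← coc_P h, ← map_sub, ContinuousLinearEquiv.symm_apply_apply,
      coc_inv hS h] at e1
    have e2 := (hyp n b v).1
    refine e1.trans ?_
    have e3 : μ ^ n ≤ 1 := pow_le_one₀ hμ0.le hμ1.le
    calc C * μ ^ n * ‖coc g A n b (P b v)‖ ≤ C * μ ^ n * (C * μ ^ n * ‖v‖) :=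
          mul_le_mul_of_nonneg_left e2 (by positivity)
      _ ≤ C * μ ^ n * (C * 1 * ‖v‖) := by gcongr
      _ = _ := by ring
  have h2 : P (S a b) (v - P b v) = 0 := by
    apply zero_of_bound (K := C * (C * ‖v‖)) hμ0 hμ1
    intro n
    obtain ⟨q, hq⟩ := (hg.surjective.iterate n) b
    subst hq
    have e1 := (hyp n q v).2
    have e2 : S a (g^[n] q) = g^[n] (S ((coc g A n q).symm a) q) := by
      rw [iter_S h, ContinuousLinearEquiv.apply_symm_apply]
    set q' : B := S ((coc g A n q).symm a) q with hq'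
    have e3 : (coc g A n q').symm (v - P (g^[n] q) v) = (coc g A n q).symm (v - P (g^[n] q) v) := by
      rw [ContinuousLinearEquiv.symm_apply_eq, hq', coc_inv hS h,
        ContinuousLinearEquiv.apply_symm_apply]
    rw [e2]
    have e4 := (hyp n q' ((coc g A n q').symm (v - P (g^[n] q) v))).1
    rw [coc_P h, ContinuousLinearEquiv.apply_symm_apply, e3] at e4
    refine e4.trans ?_
    have e5 : μ ^ n ≤ 1 := pow_le_one₀ hμ0.le hμ1.le
    calc C * μ ^ n * ‖(coc g A n q).symm (v - P (g^[n] q) v)‖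
        ≤ C * μ ^ n * (C * μ ^ n * ‖v‖) := mul_le_mul_of_nonneg_left e1 (by positivity)
      _ ≤ C * μ ^ n * (C * 1 * ‖v‖) := by gcongr
      _ = _ := by ring
  have h3 : v = P b v + (v - P b v) := by abel
  conv_lhs => rw [h3, map_add, h2, add_zero]
  exact (sub_eq_zero.1 h1).symm

end alg

section top
variable {d : ℕ} {B : Type v} [MetricSpace B] [CompactSpace B] {g : B → B} {S : V d → B → B}
  {A : B → (V d ≃L[ℝ] V d)} {P : B → (V d →L[ℝ] V d)}

/-- uniform continuity of the action -/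
theorem uc (hS : TorusOrbits d S) (r ε : ℝ) (hε : 0 < ε) :
    ∃ δ : ℝ, 0 < δ ∧ ∀ (a a' : V d) (q q' : B), ‖a‖ ≤ r → ‖a'‖ ≤ r → ‖a - a'‖ < δ →
      dist q q' < δ → dist (S a q) (S a' q') < ε := by
  have hc : IsCompact ((closedBall (0 : V d) r) ×ˢ (univ : Set B)) :=
    (isCompact_closedBall (0 : V d) r).prod isCompact_univ
  have huc := hc.uniformContinuousOn_of_continuous hS.cont.continuousOn
  rw [Metric.uniformContinuousOn_iff] at huc
  obtain ⟨δ, hδ, h⟩ := huc ε hε
  refine ⟨δ, hδ, fun a a' q q' ha ha' haa hqq => ?_⟩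
  refine h (a, q) ⟨mem_closedBall_zero_iff.2 ha, mem_univ _⟩ (a', q')
    ⟨mem_closedBall_zero_iff.2 ha', mem_univ _⟩ ?_
  rw [Prod.dist_eq]
  exact max_lt (by rw [dist_eq_norm]; exact haa) hqq

theorem uc0 (hS : TorusOrbits d S) (ε : ℝ) (hε : 0 < ε) :
    ∃ ζ : ℝ, 0 < ζ ∧ ∀ (a : V d) (q : B), ‖a‖ < ζ → dist (S a q) q < ε := by
  obtain ⟨δ, hδ, h⟩ := uc hS 1 ε hε
  refine ⟨min δ 1, lt_min hδ one_pos, fun a q ha => ?_⟩
  have := h a 0 q q (ha.le.trans (min_le_right _ _)) (by simp)
    (by rw [sub_zero]; exact ha.trans_le (min_le_left _ _)) (by rw [dist_self]; exact hδ)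
  rwa [hS.zero] at this

/-- `g` does not return quickly to the orbit of `b` -/
theorem noreturn (hS : TorusOrbits d S) (h : HypOnOrbits g S A P) (hg : Continuous g) {b : B}
    (hb : ∀ j : ℕ, 1 ≤ j → ∀ a, g^[j] b ≠ S a b) (r : ℝ) (J : ℕ) :
    ∃ c : ℝ, 0 < c ∧ ∀ (p q : B) (a a' : V d) (j : ℕ), dist p b < c → ‖a‖ ≤ r → ‖a'‖ ≤ r →
      dist q (S a p) < c → 1 ≤ j → j ≤ J → c ≤ dist (g^[j] q) (S a' p) := by
  have hone : ∀ j : ℕ, 1 ≤ j → ∃ c : ℝ, 0 < c ∧ ∀ (p q : B) (a a' : V d), dist p b < c → ‖a‖ ≤ r →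
      ‖a'‖ ≤ r → dist q (S a p) < c → c ≤ dist (g^[j] q) (S a' p) := by
    intro j hj
    set D : Set ((B × B) × (V d × V d)) := univ ×ˢ (closedBall 0 r ×ˢ closedBall 0 r) with hD
    have hDc : IsCompact D :=
      isCompact_univ.prod ((isCompact_closedBall _ _).prod (isCompact_closedBall _ _))
    have hcont : Continuous fun t : (B × B) × (V d × V d) =>
        dist t.1.1 b + dist t.1.2 (S t.2.1 t.1.1) + dist (g^[j] t.1.2) (S t.2.2 t.1.1) := by
      have c1 : Continuous fun t : (B × B) × (V d × V d) => t.1.1 := continuous_fst.comp continuous_fst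
      have c2 : Continuous fun t : (B × B) × (V d × V d) => t.1.2 := continuous_snd.comp continuous_fst
      have c3 : Continuous fun t : (B × B) × (V d × V d) => t.2.1 := continuous_fst.comp continuous_snd
      have c4 : Continuous fun t : (B × B) × (V d × V d) => t.2.2 := continuous_snd.comp continuous_snd
      have c5 : Continuous fun t : (B × B) × (V d × V d) => S t.2.1 t.1.1 :=
        hS.cont.comp (c3.prodMk c1)
      have c6 : Continuous fun t : (B × B) × (V d × V d) => S t.2.2 t.1.1 :=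
        hS.cont.comp (c4.prodMk c1)
      have c7 : Continuous fun t : (B × B) × (V d × V d) => g^[j] t.1.2 := (hg.iterate j).comp c2
      exact ((c1.dist continuous_const).add (c2.dist c5)).add (c7.dist c6)
    obtain ⟨c, hc, hmin⟩ := hDc.exists_forall_le' hcont.continuousOn (a := 0) (by
      rintro ⟨⟨p, q⟩, ⟨a, a'⟩⟩ -
      have n1 : 0 ≤ dist p b := dist_nonneg
      have n2 : 0 ≤ dist q (S a p) := dist_nonneg
      have n3 : 0 ≤ dist (g^[j] q) (S a' p) := dist_nonneg
      show 0 < dist p b + dist q (S a p) + dist (g^[j] q) (S a' p)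
      by_contra hcon
      have e1 : dist p b = 0 := by linarith
      have e2 : dist q (S a p) = 0 := by linarith
      have e3 : dist (g^[j] q) (S a' p) = 0 := by linarith
      rw [dist_eq_zero] at e1 e2 e3
      subst e1
      rw [e2, iter_S h] at e3
      apply hb j hj (-(coc g A j p a) + a')
      rw [hS.add, ← e3, S_neg hS])
    refine ⟨c / 3, by positivity, fun p q a a' h1 h2 h3 h4 => ?_⟩
    have h5 := hmin ((p, q), (a, a')) ⟨mem_univ _, mem_closedBall_zero_iff.2 h2,
      mem_closedBall_zero_iff.2 h3⟩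
    simp only at h5
    linarith
  induction J with
  | zero => exact ⟨1, one_pos, fun p q a a' j _ _ _ _ h1 h2 => by omega⟩
  | succ J ih =>
    obtain ⟨c, hc, hcJ⟩ := ih
    obtain ⟨c', hc', hcJ'⟩ := hone (J + 1) (by omega)
    refine ⟨min c c', lt_min hc hc', fun p q a a' j h1 h2 h3 h4 h5 h6 => ?_⟩
    rcases Nat.lt_or_ge J j with hj | hj
    · have : j = J + 1 := by omega
      subst this
      exact (min_le_right _ _).trans (hcJ' p q a a' (h1.trans_le (min_le_right _ _)) h2 h3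
        (h4.trans_le (min_le_right _ _)))
    · exact (min_le_left _ _).trans (hcJ p q a a' j (h1.trans_le (min_le_left _ _)) h2 h3
        (h4.trans_le (min_le_left _ _)) h5 hj)

/-- the linear parts are bounded -/
theorem bdd (hS : TorusOrbits d S) (h : HypOnOrbits g S A P) (hg : Continuous g) :
    ∃ K : ℝ, 0 < K ∧ ∀ (n : ℕ) (b : B) (v : V d), ‖coc g A n b v‖ ≤ K ^ n * ‖v‖ := by
  obtain ⟨ρ, hρ, hdisc⟩ := hS.disc
  -- elements of norm `ρ / 2` move all points
  have hDc : IsCompact ((sphere (0 : V d) (ρ / 2)) ×ˢ (univ : Set B)) :=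
    (isCompact_sphere _ _).prod isCompact_univ
  have hcont : Continuous fun t : V d × B => dist (S t.1 t.2) t.2 := hS.cont.dist continuous_snd
  obtain ⟨c, hc, hmin⟩ := hDc.exists_forall_le' hcont.continuousOn (a := 0) (by
    rintro ⟨a, q⟩ ⟨ha, -⟩
    rw [mem_sphere_zero_iff_norm] at ha
    simp only at ha
    apply dist_pos.2
    intro he
    have := hdisc a q he (by rw [ha]; linarith)
    rw [this, norm_zero] at ha
    linarith)
  have huc := CompactSpace.uniformContinuous_of_continuous hg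
  rw [Metric.uniformContinuous_iff] at huc
  obtain ⟨ε, hε, hgε⟩ := huc c hc
  obtain ⟨ζ, hζ, hSζ⟩ := uc0 hS ε hε
  have key : ∀ (b : B) (v : V d), ‖v‖ < ζ → ‖A b v‖ < ρ / 2 := by
    intro b v hv
    by_contra hcon
    push Not at hcon
    have hpos : 0 < ‖A b v‖ := by linarith
    set t : ℝ := (ρ / 2) / ‖A b v‖ with ht
    have ht0 : 0 < t := by positivity
    have ht1 : t ≤ 1 := by rw [ht, div_le_one hpos]; exact hcon
    have h1 : ‖A b (t • v)‖ = ρ / 2 := by
      rw [map_smul, norm_smul, Real.norm_of_nonneg ht0.le, ht, div_mul_cancel₀ _ hpos.ne']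
    have h2 : ‖t • v‖ < ζ := by
      rw [norm_smul, Real.norm_of_nonneg ht0.le]
      have := norm_nonneg v
      nlinarith
    have h3 := hmin (A b (t • v), g b) ⟨by rw [mem_sphere_zero_iff_norm]; exact h1, mem_univ _⟩
    simp only at h3
    rw [← h.equi] at h3
    have h4 := hgε (hSζ (t • v) b h2)
    linarith
  have hA : ∀ (b : B) (v : V d), ‖A b v‖ ≤ (ρ / ζ) * ‖v‖ := by
    intro b v
    rcases eq_or_ne v 0 with rfl | hv
    · simp
    have hv' : 0 < ‖v‖ := norm_pos_iff.2 hv
    set t : ℝ := (ζ / 2) / ‖v‖ with ht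
    have ht0 : 0 < t := by positivity
    have h1 : ‖t • v‖ < ζ := by
      rw [norm_smul, Real.norm_of_nonneg ht0.le, ht, div_mul_cancel₀ _ hv'.ne']
      linarith
    have h2 := key b (t • v) h1
    rw [map_smul, norm_smul, Real.norm_of_nonneg ht0.le, ht] at h2
    have h3 : ζ / 2 / ‖v‖ * ‖A b v‖ * ‖v‖ < ρ / 2 * ‖v‖ := mul_lt_mul_of_pos_right h2 hv'
    have h4 : ζ / 2 / ‖v‖ * ‖A b v‖ * ‖v‖ = ζ / 2 * ‖A b v‖ := by field_simp
    rw [h4] at h3
    rw [div_mul_eq_mul_div, le_div_iff₀ hζ]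
    nlinarith
  refine ⟨ρ / ζ, by positivity, fun n => ?_⟩
  induction n with
  | zero => intro b v; simp [coc]
  | succ n ih =>
    intro b v
    rw [coc_succ_apply]
    refine (hA _ _).trans ?_
    have h1 := ih b v
    have h2 : 0 ≤ ρ / ζ := by positivity
    calc (ρ / ζ) * ‖coc g A n b v‖ ≤ (ρ / ζ) * ((ρ / ζ) ^ n * ‖v‖) :=
          mul_le_mul_of_nonneg_left h1 h2
      _ = (ρ / ζ) ^ (n + 1) * ‖v‖ := by ring

/-- The elements of the stabilisers whose unstable parts move the point. -/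
theorem homoclinic (hd : 1 ≤ d) (hS : TorusOrbits d S) (h : HypOnOrbits g S A P)
    (hg : Function.Bijective g) [Nonempty B] :
    ∃ (c E : ℝ), 0 < c ∧ 0 ≤ E ∧ ∀ q : B, ∃ e, S e q = q ∧ ‖e‖ ≤ E ∧
      c ≤ dist (S (e - P q e) q) q := by
  obtain ⟨ρ, hρ, hdisc⟩ := hS.disc
  obtain ⟨r, hr⟩ := hS.cocpt
  have hr0 : 0 ≤ r := by
    obtain ⟨w, -, hw⟩ := hr 0 (Classical.arbitrary B)
    exact (norm_nonneg _).trans hw
  set D : Set (V d × B) := (closedBall (0 : V d) (2 * r + 1) ∩ {v | ρ ≤ ‖v‖}) ×ˢ univ with hD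
  have hDc : IsCompact D := ((isCompact_closedBall (0 : V d) (2 * r + 1)).inter_right
    (isClosed_le continuous_const continuous_norm)).prod isCompact_univ
  have hcont : Continuous fun t : V d × B =>
      dist (S t.1 t.2) t.2 + dist (S (t.1 - P t.2 t.1) t.2) t.2 := by
    have c0 : Continuous fun t : V d × B => P t.2 t.1 :=
      (h.cont.comp continuous_snd).clm_apply continuous_fst
    have c1 : Continuous fun t : V d × B => S (t.1 - P t.2 t.1) t.2 :=
      hS.cont.comp ((continuous_fst.sub c0).prodMk continuous_snd)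
    exact (hS.cont.dist continuous_snd).add (c1.dist continuous_snd)
  obtain ⟨c, hc, hmin⟩ := hDc.exists_forall_le' hcont.continuousOn (a := 0) (by
    rintro ⟨v, q⟩ ⟨⟨-, hv⟩, -⟩
    have n1 : 0 ≤ dist (S v q) q := dist_nonneg
    have n2 : 0 ≤ dist (S (v - P q v) q) q := dist_nonneg
    show 0 < dist (S v q) q + dist (S (v - P q v) q) q
    by_contra hcon
    have e1 : dist (S v q) q = 0 := by linarith
    have e2 : dist (S (v - P q v) q) q = 0 := by linarith
    rw [dist_eq_zero] at e1 e2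
    have e3 := unstable_zero hS h hg e2
    have e4 : v = P q v := sub_eq_zero.1 e3
    have e5 : P q v = 0 := by
      apply stable_zero hS h hg.injective (q := q)
      rw [← e4]
      exact e1
    rw [e5] at e4
    rw [mem_setOf_eq, e4, norm_zero] at hv
    linarith)
  refine ⟨c, 2 * r + 1, hc, by linarith, fun q => ?_⟩
  haveI : NeZero d := ⟨by omega⟩
  obtain ⟨w, hw, hwn⟩ := hr (EuclideanSpace.single (0 : Fin d) (r + 1)) q
  have hn : ‖(EuclideanSpace.single (0 : Fin d) (r + 1) : V d)‖ = r + 1 := by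
    rw [EuclideanSpace.norm_single, Real.norm_of_nonneg (by linarith)]
  have hw1 : ‖w‖ ≤ 2 * r + 1 := by
    have := norm_sub_norm_le w (EuclideanSpace.single (0 : Fin d) (r + 1))
    rw [norm_sub_rev] at hwn
    linarith
  have hw2 : w ≠ 0 := by
    rintro rfl
    rw [sub_zero, hn] at hwn
    linarith
  have hw3 : ρ ≤ ‖w‖ := by
    by_contra hcon
    push Not at hcon
    exact hw2 (hdisc w q hw hcon)
  refine ⟨w, hw, hw1, ?_⟩
  have h5 := hmin (w, q) ⟨⟨mem_closedBall_zero_iff.2 hw1, hw3⟩, mem_univ _⟩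
  simp only [hw, dist_self, zero_add] at h5
  exact h5

/-- The stable parts of the elements of the stabilisers are dense, uniformly. -/
theorem dense_stable (hS : TorusOrbits d S) (h : HypOnOrbits g S A P) (hgc : Continuous g)
    (hg : Function.Bijective g) (ε : ℝ) (hε : 0 < ε) :
    ∃ E : ℝ, 0 ≤ E ∧ ∀ (a : V d) (q : B), ∃ w, S w q = q ∧ ‖P q (a - w)‖ < ε ∧ ‖a - w‖ ≤ E := by
  obtain ⟨K, hK, hKb⟩ := bdd hS h hgc
  obtain ⟨r, hr⟩ := hS.cocpt
  obtain ⟨C, μ, hC, hμ0, hμ1, hyp⟩ := h.hyp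
  obtain ⟨n, hn⟩ := exists_pow_lt_of_lt_one (x := ε / (C * (|r| + 1))) (by positivity) hμ1
  refine ⟨K ^ n * |r|, by positivity, fun a q => ?_⟩
  obtain ⟨q', rfl⟩ := (hg.surjective.iterate n) q
  obtain ⟨w, hw, hwn⟩ := hr ((coc g A n q').symm a) q'
  have hwn' : ‖(coc g A n q').symm a - w‖ ≤ |r| := hwn.trans (le_abs_self r)
  have h1 : a - coc g A n q' w = coc g A n q' ((coc g A n q').symm a - w) := by
    rw [map_sub, ContinuousLinearEquiv.apply_symm_apply]
  refine ⟨coc g A n q' w, (stab_iff h hg.injective n w q').2 hw, ?_, ?_⟩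
  · rw [h1, ← coc_P h]
    refine ((hyp n q' _).1).trans_lt ?_
    rw [lt_div_iff₀ (by positivity)] at hn
    have h2 : 0 < μ ^ n := by positivity
    have h3 := abs_nonneg r
    have h4 : C * μ ^ n * ‖(coc g A n q').symm a - w‖ ≤ C * μ ^ n * |r| :=
      mul_le_mul_of_nonneg_left hwn' (by positivity)
    nlinarith
  · rw [h1]
    exact (hKb n q' _).trans (mul_le_mul_of_nonneg_left hwn' (by positivity))

end top

end Pool.Agent.N813.CL
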