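import Pool.Agent.H718R2.G0

/-!
# Diffeomorphisms which are hyperbolic along toral orbits: definitions

`V d = ℝ^d`, `DiffM n N r = Diff^r(N)` and `strongTop n N r` is its strong (Whitney) `C^r` topology
(`Pool/Agent/H718R2/G0.lean`).
-/

set_option autoImplicit false

open scoped Manifold ContDiff Topology
open Filter Set Metric

universe u v

noncomputable section

namespace Pool.Agent.N813.CL.F

open Pool.Agent.H718R2.G

/-! ### linear algebra -/

/-- The linear automorphisms of `ℝ^d`. -/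
abbrev Aut (d : ℕ) : Type := V d ≃L[ℝ] V d

/-- The linear endomorphisms of `ℝ^d`. -/
abbrev End (d : ℕ) : Type := V d →L[ℝ] V d

/-- The value `e v`. -/
def ap {d : ℕ} (e : Aut d) (v : V d) : V d := e v

/-- The value `e⁻¹ v`. -/
def apInv {d : ℕ} (e : Aut d) (v : V d) : V d := e.symm v

/-- The value `P v`. -/
def apE {d : ℕ} (P : End d) (v : V d) : V d := P v

/-- The Euclidean norm. -/
def nm {d : ℕ} (v : V d) : ℝ := ‖v‖

/-- The product `e' e` (first `e`, then `e'`). -/
def mulA {d : ℕ} (e' e : Aut d) : Aut d := e.trans e'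

/-- The identity. -/
def idA (d : ℕ) : Aut d := ContinuousLinearEquiv.refl ℝ (V d)

/-- The products `A (g^(n-1) b) ⋯ A (g b) A (b)` along the orbits of `g`. -/
def coc {d : ℕ} {B : Type v} (g : B → B) (A : B → Aut d) : ℕ → B → Aut d
  | 0, _ => idA d
  | n + 1, b => mulA (A (g^[n] b)) (coc g A n b)

/-- `P : B → End(ℝ^d)` is continuous, every `P b` is a projection. -/
def ContProj {d : ℕ} {B : Type v} [TopologicalSpace B] (P : B → End d) : Prop :=
  Continuous P ∧ ∀ b v, apE (P b) (apE (P b) v) = apE (P b) v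

/-- The cocycle `A` over `g` is uniformly hyperbolic: there is a continuous invariant splitting
`ℝ^d = im P_b ⊕ ker P_b`, the first summand is contracted and the second one is expanded
exponentially fast by the products of the `A_b` along the orbits of `g`. -/
def HypCoc {d : ℕ} {B : Type v} [TopologicalSpace B] (g : B → B) (A : B → Aut d) : Prop :=
  ∃ P : B → End d, ContProj P ∧ (∀ b v, ap (A b) (apE (P b) v) = apE (P (g b)) (ap (A b) v)) ∧
    ∃ C μ : ℝ, 0 < C ∧ 0 < μ ∧ μ < 1 ∧ ∀ (n : ℕ) (b : B) (v : V d),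
      nm (ap (coc g A n b) (apE (P b) v)) ≤ C * μ ^ n * nm v ∧
      nm (apInv (coc g A n b) (v - apE (P (g^[n] b)) v)) ≤ C * μ ^ n * nm v

/-! ### toral orbits -/

/-- `S` is a continuous action of `ℝ^d` on `B`. -/
def IsAct (d : ℕ) {B : Type v} [TopologicalSpace B] (S : V d → B → B) : Prop :=
  Continuous (fun q : V d × B => S q.1 q.2) ∧ (∀ b, S 0 b = b) ∧
    ∀ a a' b, S (a + a') b = S a (S a' b)

/-- `S` is a continuous action of `ℝ^d` on `B` all of whose orbits are `d`-dimensional tori: the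
stabilisers are lattices of `ℝ^d`, uniformly discrete and uniformly cocompact. -/
def TorusOrb (d : ℕ) {B : Type v} [TopologicalSpace B] (S : V d → B → B) : Prop :=
  IsAct d S ∧ (∃ ρ : ℝ, 0 < ρ ∧ ∀ a b, S a b = b → nm a < ρ → a = 0) ∧
    ∃ c : ℝ, ∀ a b, ∃ w, S w b = b ∧ nm (a - w) ≤ c

/-- The orbit of `b` is nonwandering for the map induced by `g` on the space of the orbits of `S`. -/
def NonWandMod {d : ℕ} {B : Type v} [TopologicalSpace B] (g : B → B) (S : V d → B → B) (b : B) :
    Prop :=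
  ∀ W ∈ 𝓝 b, ∃ m : ℕ, 1 ≤ m ∧ ∃ y ∈ W, ∃ a, S a (g^[m] y) ∈ W

/-- `g` maps the orbits of an action `S` of `ℝ^d` on `B` with toral orbits to orbits, by affine maps,
`g (S_a b) = S_{A_b a} (g b)`, and it is hyperbolic along the orbits. The map which `g` induces on the
space of the orbits of `S` is ARBITRARY, except that the orbit of `b` is nonwandering for it. -/
def TorBase (d : ℕ) {B : Type v} [TopologicalSpace B] (g : B → B) (b : B) : Prop :=
  ∃ (S : V d → B → B) (A : B → Aut d), TorusOrb d S ∧ (∀ a b, g (S a b) = S (ap (A b) a) (g b)) ∧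
    HypCoc g A ∧ NonWandMod g S b

/-! ### compact group extensions -/

/-- `(X, y) ↦ R_X y` is smooth. -/
def SmoothFam (k n : ℕ) (N : Type u) [TopologicalSpace N] [ChartedSpace (V n) N]
    (R : V k → N → N) : Prop :=
  ContMDiff ((𝓡 k).prod (𝓡 n)) (𝓡 n) ∞ (fun q : V k × N => R q.1 q.2)

/-- Smooth maps `R_X`, `X ∈ ℝ^k`, of `N` which form a one-parameter group on every line through `0`.
Example: `R_X y = exp(X) y` for a smooth action of a Lie group with the Lie algebra `ℝ^k`. -/
def ExpAct (k n : ℕ) (N : Type u) [TopologicalSpace N] [ChartedSpace (V n) N]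
    (R : V k → N → N) : Prop :=
  SmoothFam k n N R ∧ (∀ y, R 0 y = y) ∧
    ∀ (s t : ℝ) (X : V k) (y : N), R ((s + t) • X) y = R (s • X) (R (t • X) y)

/-- `K ⊆ N` is closed and invariant under `F` and the `R_X`, and `F` commutes with the `R_X` on `K`. -/
def Inv {k : ℕ} {N : Type u} [TopologicalSpace N] (F : N → N) (R : V k → N → N) (K : Set N) :
    Prop :=
  IsClosed K ∧ ∀ y ∈ K, F y ∈ K ∧ ∀ X, R X y ∈ K ∧ F (R X y) = R X (F y)

/-- `π` is continuous on `K`, `π(K) = B`, the fibres of `π` in `K` are the sets `{R_X y : ‖X‖ ≤ c}`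
(the orbits of a compact connected group `exp(ℝ^k)`). -/
def Quot {k : ℕ} {N : Type u} [TopologicalSpace N] (R : V k → N → N) (K : Set N) {B : Type v}
    [TopologicalSpace B] (π : N → B) : Prop :=
  ContinuousOn π K ∧ (∀ b, ∃ y ∈ K, π y = b) ∧ (∀ X, ∀ y ∈ K, π (R X y) = π y) ∧
    ∃ c : ℝ, ∀ y ∈ K, ∀ y' ∈ K, π y = π y' → ∃ X, nm X ≤ c ∧ R X y = y'

/-- `z` lies in a closed invariant set `K` of `F` on which `F` is a compact connected group extension
of a homeomorphism `g` of `B = π(K)` with `TorBase d g (π z)`. -/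
def TorHyp (k d n : ℕ) (N : Type u) [TopologicalSpace N] [ChartedSpace (V n) N] (F : N → N)
    (z : N) : Prop :=
  ∃ (R : V k → N → N) (K : Set N) (B : Type v) (_ : MetricSpace B) (_ : CompactSpace B)
    (g : B ≃ₜ B) (π : N → B), ExpAct k n N R ∧ Inv F R K ∧ Quot R K π ∧
      (∀ y ∈ K, π (F y) = g (π y)) ∧ z ∈ K ∧ TorBase d g (π z)

/-- Every neighbourhood of `F` in `Diff^r(N)` contains a diffeomorphism with the property `Q`. -/
def Approx (n : ℕ) (N : Type u) [TopologicalSpace N] [ChartedSpace (V n) N] (r : ℕ∞)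
    (F : DiffM n N r) (Q : DiffM n N r → Prop) : Prop :=
  ∀ U : Set (DiffM n N r), IsOpen[strongTop n N r] U → F ∈ U → ∃ G ∈ U, Q G

end Pool.Agent.N813.CL.F
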