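import Pool.Agent.N813.CL.Coc

/-!
# Corrections along the toral orbits
-/

set_option autoImplicit false
set_option linter.unusedSectionVars false

open scoped Topology
open Filter Set Metric

universe u v

namespace Pool.Agent.N813.CL

open Pool.Agent.H718R2.G

theorem sum_bd {W : Type*} [SeminormedAddCommGroup W] {ν K : ℝ} (hν0 : 0 ≤ ν) (hν1 : ν < 1)
    (hK : 0 ≤ K) (s : Finset ℕ) (τ : ℕ → ℕ) (hτ : Set.InjOn τ s) (f : ℕ → W)
    (h : ∀ t ∈ s, ‖f t‖ ≤ K * ν ^ τ t) : ‖∑ t ∈ s, f t‖ ≤ K / (1 - ν) := by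
  have hs : ∑ j ∈ s.image τ, ν ^ j ≤ (1 - ν)⁻¹ := by
    rw [← tsum_geometric_of_lt_one hν0 hν1]
    exact (summable_geometric_of_lt_one hν0 hν1).sum_le_tsum _ (fun j _ => pow_nonneg hν0 j)
  calc ‖∑ t ∈ s, f t‖ ≤ ∑ t ∈ s, ‖f t‖ := norm_sum_le _ _
    _ ≤ ∑ t ∈ s, K * ν ^ τ t := Finset.sum_le_sum h
    _ = K * ∑ j ∈ s.image τ, ν ^ j := by rw [← Finset.mul_sum, Finset.sum_image hτ]
    _ ≤ K * (1 - ν)⁻¹ := mul_le_mul_of_nonneg_left hs hK
    _ = K / (1 - ν) := (div_eq_mul_inv _ _).symm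

/-- transversality of the stable space of `P` and the unstable space of a nearby projection `P'` -/
theorem split {d : ℕ} (P P' : V d →L[ℝ] V d) (hP : ∀ v, P (P v) = P v)
    (hP' : ∀ v, P' (P' v) = P' v) {C η : ℝ} (hC : 0 < C) (hPn : ∀ v, ‖P v‖ ≤ C * ‖v‖)
    (hPn' : ∀ v, ‖P' v‖ ≤ C * ‖v‖) (hη : ∀ v, ‖P' v - P v‖ ≤ η * ‖v‖) (hCη : 4 * (C * η) ≤ 1)
    (c : V d) : ∃ ω ω' : V d, P ω = ω ∧ P' ω' = 0 ∧ ω' - ω = c ∧ ‖ω‖ ≤ 2 * ‖P' c‖ := by
  set T : V d →ₗ[ℝ] V d := (P' ∘L P + (ContinuousLinearMap.id ℝ _ - P') ∘L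
    (ContinuousLinearMap.id ℝ _ - P)).toLinearMap with hT
  have hTv : ∀ v, T v = P' (P v) + ((v - P v) - P' (v - P v)) := fun v => rfl
  have hlow : ∀ v, ‖v‖ ≤ 2 * ‖T v‖ := by
    intro v
    have e1 : v - T v = P' (P' v - P v) - (P' (P v) - P (P v)) := by
      rw [hTv, map_sub, map_sub, hP', hP]
      abel
    have e2 : ‖v - T v‖ ≤ C * (η * ‖v‖) + η * (C * ‖v‖) := by
      rw [e1]
      refine (norm_sub_le _ _).trans (add_le_add ?_ ?_)
      · exact (hPn' _).trans (mul_le_mul_of_nonneg_left (hη v) hC.le)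
      · have hη0 : 0 ≤ η * ‖P v‖ := (norm_nonneg _).trans (hη (P v))
        refine (hη (P v)).trans ?_
        by_cases hη1 : 0 ≤ η
        · exact mul_le_mul_of_nonneg_left (hPn v) hη1
        · push Not at hη1
          have : ‖v‖ = 0 := by
            by_contra hne
            have h1 : 0 < ‖v‖ := lt_of_le_of_ne (norm_nonneg _) (Ne.symm hne)
            have h2 := (norm_nonneg _).trans (hη v)
            nlinarith
          have h3 := hPn v
          rw [this, mul_zero] at h3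
          have h4 : ‖P v‖ = 0 := le_antisymm h3 (norm_nonneg _)
          rw [this, h4]
          simp
    have e3 := norm_sub_norm_le v (T v)
    have e4 : C * (η * ‖v‖) + η * (C * ‖v‖) = 2 * (C * η) * ‖v‖ := by ring
    rw [e4] at e2
    nlinarith [norm_nonneg v]
  have hinj : Function.Injective T := by
    rw [injective_iff_map_eq_zero]
    intro v hv
    have h1 := hlow v
    rw [hv, norm_zero, mul_zero] at h1
    exact norm_le_zero_iff.1 h1
  obtain ⟨u, hu⟩ := (LinearMap.injective_iff_surjective.1 hinj) (P' c)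
  have hu' := hu
  rw [hTv] at hu'
  have h1 : (u - P u) - P' (u - P u) = 0 := by
    have h2 := congrArg P' hu'
    rw [map_add, map_sub P' (u - P u), hP', hP', hP', sub_self, add_zero] at h2
    rw [h2] at hu'
    simpa using hu'
  have h2 : P u = u := by
    have h3 : T (u - P u) = 0 := by
      rw [hTv, map_sub P u, hP, sub_self, map_zero, zero_add, sub_zero]
      exact h1
    have h4 := hinj (h3.trans (map_zero T).symm)
    exact (sub_eq_zero.1 h4).symm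
  have h3 : P' u = P' c := by
    rw [h1, add_zero, h2] at hu'
    exact hu'
  refine ⟨-u, c - u, by rw [map_neg, h2], by rw [map_sub, h3, sub_self], by abel, ?_⟩
  rw [norm_neg, ← hu]
  exact hlow u

section
variable {d : ℕ} {B : Type v} [MetricSpace B] {g : B → B} {S : V d → B → B}
  {A : B → (V d ≃L[ℝ] V d)} {P : B → (V d →L[ℝ] V d)}

theorem est_u (h : HypOnOrbits g S A P) {C μ : ℝ}
    (hyp : ∀ (n : ℕ) (b : B) (v : V d), ‖coc g A n b (P b v)‖ ≤ C * μ ^ n * ‖v‖ ∧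
      ‖(coc g A n b).symm (v - P (g^[n] b) v)‖ ≤ C * μ ^ n * ‖v‖)
    (p : B) (i t : ℕ) (hit : i ≤ t) (v : V d) :
    ‖coc g A i p ((coc g A t p).symm v - P p ((coc g A t p).symm v))‖ ≤
      C * μ ^ (t - i) * ‖v‖ := by
  obtain ⟨j, rfl⟩ := Nat.exists_eq_add_of_le hit
  rw [coc_add_symm, ← coc_symm_P h i, ← map_sub, ContinuousLinearEquiv.apply_symm_apply,
    ← coc_symm_P h j, ← map_sub, Nat.add_sub_cancel_left]
  exact (hyp j _ v).2

theorem est_s (h : HypOnOrbits g S A P) {C μ : ℝ}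
    (hyp : ∀ (n : ℕ) (b : B) (v : V d), ‖coc g A n b (P b v)‖ ≤ C * μ ^ n * ‖v‖ ∧
      ‖(coc g A n b).symm (v - P (g^[n] b) v)‖ ≤ C * μ ^ n * ‖v‖)
    (p : B) (i t : ℕ) (hit : t ≤ i) (v : V d) :
    ‖coc g A i p (P p ((coc g A t p).symm v))‖ ≤ C * μ ^ (i - t) * ‖v‖ := by
  obtain ⟨j, rfl⟩ := Nat.exists_eq_add_of_le hit
  rw [coc_add, coc_P h t, ContinuousLinearEquiv.apply_symm_apply, Nat.add_sub_cancel_left]
  exact (hyp j _ v).1

/-- The corrections. -/
theorem solve (h : HypOnOrbits g S A P) {C μ ν E : ℝ} (hC : 0 < C) (hν0 : 0 < ν) (hν1 : ν < 1)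
    (hμ : μ = ν * ν) (hE : 0 ≤ E)
    (hyp : ∀ (n : ℕ) (b : B) (v : V d), ‖coc g A n b (P b v)‖ ≤ C * μ ^ n * ‖v‖ ∧
      ‖(coc g A n b).symm (v - P (g^[n] b) v)‖ ≤ C * μ ^ n * ‖v‖)
    (p : B) (m R₀ : ℕ) (κ : ℕ → V d) (hκ : ∀ t, ‖κ t‖ ≤ E)
    (hκ0 : ∀ t, κ t ≠ 0 → R₀ ≤ t ∧ t + R₀ ≤ m) {η : ℝ} (hCη : 4 * (C * η) ≤ 1)
    (hη : ∀ v, ‖P (g^[m] p) v - P p v‖ ≤ η * ‖v‖) (a₂ : V d) (σ s : ℝ)
    (hσ : σ = C * E * ν ^ R₀ / (1 - ν)) (hs : s = 2 * ((C + 1) * σ + ‖P (g^[m] p) a₂‖)) :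
    ∃ x : ℕ → V d, (∀ i < m, x (i + 1) = A (g^[i] p) (x i - κ i)) ∧
      ‖x 0‖ ≤ σ + s + C * μ ^ m * (2 * σ + ‖a₂‖ + s) ∧
      ‖x m - x 0 - a₂‖ ≤ C * μ ^ m * (2 * σ + ‖a₂‖ + 2 * s) ∧
      ∀ i < m, i + R₀ ≤ m → (∀ t, κ t ≠ 0 → t < i → t + R₀ ≤ i) →
        (∀ t, κ t ≠ 0 → i < t → i + R₀ ≤ t) →
        ‖x i - (κ i - P (g^[i] p) (κ i))‖ ≤ 2 * σ + C * s +
          C * μ ^ R₀ * (2 * σ + ‖a₂‖ + s) := by
  have hμ0 : 0 < μ := by rw [hμ]; positivity
  have hμ1 : μ < 1 := by rw [hμ]; nlinarith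
  have h1ν : 0 < 1 - ν := by linarith
  have hσ0 : 0 ≤ σ := by rw [hσ]; positivity
  have hs0 : 0 ≤ s := by rw [hs]; positivity
  have hPn : ∀ (q : B) (v : V d), ‖P q v‖ ≤ C * ‖v‖ := by
    intro q v
    have := (hyp 0 q v).1
    rw [pow_zero, mul_one] at this
    exact this
  set D : ℕ → (V d ≃L[ℝ] V d) := fun i => coc g A i p with hD
  set y : ℕ → V d := fun t => (D t).symm (κ t) with hy
  -- the estimate of a term
  have term : ∀ (j t : ℕ), (κ t ≠ 0 → R₀ ≤ j) → C * μ ^ j * ‖κ t‖ ≤ C * E * ν ^ R₀ * ν ^ j := by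
    intro j t hj
    by_cases hκt : κ t = 0
    · rw [hκt, norm_zero, mul_zero]
      positivity
    · have h1 : ν ^ j ≤ ν ^ R₀ := pow_le_pow_of_le_one hν0.le hν1.le (hj hκt)
      have h2 : μ ^ j = ν ^ j * ν ^ j := by rw [hμ, mul_pow]
      rw [h2]
      calc C * (ν ^ j * ν ^ j) * ‖κ t‖ ≤ C * (ν ^ R₀ * ν ^ j) * E := by
            apply mul_le_mul _ (hκ t) (norm_nonneg _) (by positivity)
            apply mul_le_mul_of_nonneg_left _ hC.le
            exact mul_le_mul_of_nonneg_right h1 (by positivity)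
        _ = _ := by ring
  have hCE : 0 ≤ C * E * ν ^ R₀ := by positivity
  -- the sums of unstable terms
  have sumU : ∀ (i i' : ℕ), i ≤ i' → (∀ t, κ t ≠ 0 → i' ≤ t → i + R₀ ≤ t) →
      ‖∑ t ∈ Finset.Ico i' m, D i (y t - P p (y t))‖ ≤ σ := by
    intro i i' hii hsep
    rw [hσ]
    apply sum_bd hν0.le hν1 hCE _ (fun t => t - i)
    · intro t ht t' ht' htt
      simp only [Finset.coe_Ico, mem_Ico] at ht ht' htt
      omega
    · intro t ht
      rw [Finset.mem_Ico] at ht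
      refine (est_u h hyp p i t (by omega) (κ t)).trans (term _ t fun hκt => ?_)
      have := hsep t hκt ht.1
      omega
  have sumS : ∀ i : ℕ, (∀ t, κ t ≠ 0 → t < i → t + R₀ ≤ i) →
      ‖∑ t ∈ Finset.range i, D i (P p (y t))‖ ≤ σ := by
    intro i hsep
    rw [hσ]
    apply sum_bd hν0.le hν1 hCE _ (fun t => i - t)
    · intro t ht t' ht' htt
      simp only [Finset.coe_range, mem_Iio] at ht ht' htt
      omega
    · intro t ht
      rw [Finset.mem_range] at ht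
      refine (est_s h hyp p i t (by omega) (κ t)).trans (term _ t fun hκt => ?_)
      have := hsep t hκt ht
      omega
  set α : V d := ∑ t ∈ Finset.Ico 0 m, D 0 (y t - P p (y t)) with hα
  set β : V d := ∑ t ∈ Finset.range m, D m (P p (y t)) with hβ
  have hαn : ‖α‖ ≤ σ := sumU 0 0 le_rfl fun t ht _ => by have := hκ0 t ht; omega
  have hβn : ‖β‖ ≤ σ := sumS m fun t ht _ => (hκ0 t ht).2
  have hD0 : ∀ v, D 0 v = v := fun v => rfl
  obtain ⟨ω, ω', hPω, hPω', hωω, hωn⟩ := split (P p) (P (g^[m] p)) (h.proj p) (h.proj _) hC (hPn p)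
    (hPn _) hη hCη (α + β + a₂)
  have hωs : ‖ω‖ ≤ s := by
    refine hωn.trans ?_
    rw [hs, map_add, map_add]
    have n1 := norm_add₃_le (a := P (g^[m] p) α) (b := P (g^[m] p) β) (c := P (g^[m] p) a₂)
    have n2 : ‖P (g^[m] p) α‖ ≤ C * σ := (hPn _ α).trans (mul_le_mul_of_nonneg_left hαn hC.le)
    have n3 : P (g^[m] p) β = β := by
      rw [hβ, map_sum]
      apply Finset.sum_congr rfl
      intro t _
      show P (g^[m] p) (coc g A m p (P p (y t))) = coc g A m p (P p (y t))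
      rw [coc_P h, h.proj]
    rw [n3] at n1 ⊢
    linarith
  have hω's : ‖ω'‖ ≤ 2 * σ + ‖a₂‖ + s := by
    have e1 : ω' = α + β + a₂ + ω := by rw [← hωω]; abel
    rw [e1]
    have n1 := norm_add₄_le (a := α) (b := β) (c := a₂) (d := ω)
    linarith
  have hDω : ∀ i, ‖D i ω‖ ≤ C * μ ^ i * ‖ω‖ := by
    intro i
    have := (hyp i p ω).1
    rwa [hPω] at this
  have hDω' : ∀ i ≤ m, ‖D i ((D m).symm ω')‖ ≤ C * μ ^ (m - i) * ‖ω'‖ := by
    intro i hi
    have h1 := est_u h hyp p i m hi ω'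
    rw [← coc_symm_P h, ← map_sub, hPω', sub_zero] at h1
    exact h1
  refine ⟨fun i => D i (∑ t ∈ Finset.Ico i m, (y t - P p (y t)) -
    ∑ t ∈ Finset.range i, P p (y t) + ω + (D m).symm ω'), ?_, ?_, ?_, ?_⟩
  · intro i hi
    have e1 : (∑ t ∈ Finset.Ico (i + 1) m, (y t - P p (y t)) -
        ∑ t ∈ Finset.range (i + 1), P p (y t) + ω + (D m).symm ω') =
        (∑ t ∈ Finset.Ico i m, (y t - P p (y t)) -
        ∑ t ∈ Finset.range i, P p (y t) + ω + (D m).symm ω') - y i := by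
      rw [Finset.sum_eq_sum_Ico_succ_bot hi, Finset.sum_range_succ]
      abel
    have e2 : κ i = D i (y i) := ((D i).apply_symm_apply (κ i)).symm
    beta_reduce
    rw [e1, e2, ← map_sub]
    rfl
  · have e1 : D 0 (∑ t ∈ Finset.Ico 0 m, (y t - P p (y t)) - ∑ t ∈ Finset.range 0, P p (y t) +
        ω + (D m).symm ω') = α + ω + D 0 ((D m).symm ω') := by
      rw [hα, Finset.range_zero, Finset.sum_empty, sub_zero, map_add, map_add, map_sum, hD0 ω]
    beta_reduce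
    rw [e1]
    have h1 := norm_add₃_le (a := α) (b := ω) (c := D 0 ((D m).symm ω'))
    have h2 := hDω' 0 (Nat.zero_le m)
    rw [Nat.sub_zero] at h2
    have h3 : C * μ ^ m * ‖ω'‖ ≤ C * μ ^ m * (2 * σ + ‖a₂‖ + s) :=
      mul_le_mul_of_nonneg_left hω's (by positivity)
    linarith
  · have e1 : D 0 (∑ t ∈ Finset.Ico 0 m, (y t - P p (y t)) - ∑ t ∈ Finset.range 0, P p (y t) +
        ω + (D m).symm ω') = α + ω + D 0 ((D m).symm ω') := by
      rw [hα, Finset.range_zero, Finset.sum_empty, sub_zero, map_add, map_add, map_sum, hD0 ω]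
    have e2 : D m (∑ t ∈ Finset.Ico m m, (y t - P p (y t)) - ∑ t ∈ Finset.range m, P p (y t) +
        ω + (D m).symm ω') = -β + D m ω + ω' := by
      rw [hβ, Finset.Ico_self, Finset.sum_empty, zero_sub, map_add, map_add, map_neg, map_sum,
        ContinuousLinearEquiv.apply_symm_apply]
    have e3 : (-β + D m ω + ω') - (α + ω + D 0 ((D m).symm ω')) - a₂ =
        D m ω - D 0 ((D m).symm ω') := by
      have e4 : ω' = α + β + a₂ + ω := by rw [← hωω]; abel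
      nth_rewrite 1 [e4]
      abel
    show ‖D m (∑ t ∈ Finset.Ico m m, (y t - P p (y t)) - ∑ t ∈ Finset.range m, P p (y t) +
        ω + (D m).symm ω') - D 0 (∑ t ∈ Finset.Ico 0 m, (y t - P p (y t)) -
        ∑ t ∈ Finset.range 0, P p (y t) + ω + (D m).symm ω') - a₂‖ ≤ _
    rw [e1, e2, e3]
    refine (norm_sub_le _ _).trans ?_
    have h2 := hDω' 0 (Nat.zero_le m)
    rw [Nat.sub_zero] at h2
    have h1 := hDω m
    have h3 : C * μ ^ m * ‖ω'‖ ≤ C * μ ^ m * (2 * σ + ‖a₂‖ + s) :=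
      mul_le_mul_of_nonneg_left hω's (by positivity)
    have h4 : C * μ ^ m * ‖ω‖ ≤ C * μ ^ m * s :=
      mul_le_mul_of_nonneg_left hωs (by positivity)
    calc ‖D m ω‖ + ‖D 0 ((D m).symm ω')‖ ≤ C * μ ^ m * s +
          C * μ ^ m * (2 * σ + ‖a₂‖ + s) := by linarith
      _ = _ := by ring
  · intro i him' him hb ha
    have hi : i ≤ m := him'.le
    show ‖D i (∑ t ∈ Finset.Ico i m, (y t - P p (y t)) - ∑ t ∈ Finset.range i, P p (y t) +
        ω + (D m).symm ω') - (κ i - P (g^[i] p) (κ i))‖ ≤ _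
    have e2 : κ i = D i (y i) := ((D i).apply_symm_apply (κ i)).symm
    have e3 : D i (P p (y i)) = P (g^[i] p) (κ i) := by
      rw [e2]
      exact coc_P h i p (y i)
    have e1 : D i (∑ t ∈ Finset.Ico i m, (y t - P p (y t)) - ∑ t ∈ Finset.range i, P p (y t) +
        ω + (D m).symm ω') - (κ i - P (g^[i] p) (κ i)) =
        ∑ t ∈ Finset.Ico (i + 1) m, D i (y t - P p (y t)) -
        ∑ t ∈ Finset.range i, D i (P p (y t)) + D i ω + D i ((D m).symm ω') := by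
      rw [Finset.sum_eq_sum_Ico_succ_bot him', map_add, map_add, map_sub, map_add, map_sum,
        map_sum, map_sub, ← e2, e3]
      abel
    rw [e1]
    have n1 := sumU i (i + 1) (by omega) (fun t ht hit => ha t ht (by omega))
    have n2 := sumS i hb
    have n3 := hDω i
    have n4 := hDω' i hi
    have n5 : C * μ ^ i * ‖ω‖ ≤ C * s := by
      have : μ ^ i ≤ 1 := pow_le_one₀ hμ0.le hμ1.le
      calc C * μ ^ i * ‖ω‖ ≤ C * 1 * s :=
            mul_le_mul (mul_le_mul_of_nonneg_left this hC.le) hωs (norm_nonneg _) (by positivity)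
        _ = _ := by ring
    have n6 : C * μ ^ (m - i) * ‖ω'‖ ≤ C * μ ^ R₀ * (2 * σ + ‖a₂‖ + s) := by
      have : μ ^ (m - i) ≤ μ ^ R₀ := pow_le_pow_of_le_one hμ0.le hμ1.le (by omega)
      exact mul_le_mul (mul_le_mul_of_nonneg_left this hC.le) hω's (norm_nonneg _) (by positivity)
    have n7 := norm_add₄_le (a := ∑ t ∈ Finset.Ico (i + 1) m, D i (y t - P p (y t)))
      (b := -∑ t ∈ Finset.range i, D i (P p (y t))) (c := D i ω) (d := D i ((D m).symm ω'))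
    rw [norm_neg, ← sub_eq_add_neg] at n7
    linarith

end

end Pool.Agent.N813.CL
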